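import Mathlib

/-!
# Normal fine ultrafilters on `P_κ(W)`

`∀ᶠ x in U, φ x` is read 'for almost all `x`'. A type `T` is embedded in `W` by an injective function
`e`; the trace of `x` on `T` is `Tr e x`.
-/

set_option autoImplicit false
universe u

namespace Pool.Agent.UlM

open Cardinal Filter

/-- `U` is a normal fine `κ`-complete ultrafilter on `P_κ(W)` -/
structure NormalFine (κ : Cardinal.{u}) (W : Type u) (U : Ultrafilter (Set W)) : Prop where
  small : ∀ᶠ x : Set W in (U : Filter (Set W)), #x < κ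
  fine : ∀ w : W, ∀ᶠ x in (U : Filter (Set W)), w ∈ x
  complete : ∀ (ι : Type u) (φ : ι → Set W → Prop), #ι < κ →
    (∀ i, ∀ᶠ x in (U : Filter (Set W)), φ i x) → ∀ᶠ x in (U : Filter (Set W)), ∀ i, φ i x
  normal : ∀ φ : W → Set W → Prop, (∀ w, ∀ᶠ x in (U : Filter (Set W)), φ w x) →
    ∀ᶠ x in (U : Filter (Set W)), ∀ w ∈ x, φ w x

/-- the trace of `x` on `T` -/
def Tr {T W : Type u} (e : T → W) (x : Set W) : Set T := {t | e t ∈ x}

/-- `⨆ n, κ^{+n}` -/
noncomputable def mu (κ : Cardinal.{u}) : Cardinal.{u} := ⨆ n : ℕ, (Order.succ^[n]) κ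

/-- the element `i` of the well-ordered type `K` is an inaccessible cardinal -/
def Ina {K : Type u} [LinearOrder K] (i : K) : Prop :=
  (#(Set.Iio i)).IsInaccessible ∧ ∀ j < i, #(Set.Iio j) < #(Set.Iio i)

end Pool.Agent.UlM
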