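import Pool.Agent.Lib.UlB.Frc
import Pool.Agent.Lib.UlM.Defs

/-!
# Blocks over a preorder (poset names of a distributive forcing), generic forcing statements

`P`, `le` is a preorder (smaller is stronger), `Z` a set of names of conditions of the second forcing:
`R t a b` is read as `t ⊩ a ≤ b`; `X a b` means that `a` extends `b` outright, in a way which is closed
under limits of chains.
-/

set_option autoImplicit false
universe u

namespace Pool.Agent.UlM

open Cardinal Filter Pool.Agent.PolF Pool.Agent.UlB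

/-- the order of the two step iteration -/
def le2 {P Z : Type u} (le : P → P → Prop) (R : P → Z → Z → Prop) (p q : P × Z) : Prop :=
  le p.1 q.1 ∧ R p.1 p.2 q.2

/-- `Z` is a block over `P` with parameter `μ` -/
structure IsBlk {P Z : Type u} (le : P → P → Prop) (R : P → Z → Z → Prop) (X : Z → Z → Prop)
    (μ : Cardinal.{u}) : Prop where
  down : ∀ t t' a b, le t' t → R t a b → R t' a b
  loc : ∀ t a b, (∀ t', le t' t → ∃ t'', le t'' t' ∧ R t'' a b) → R t a b
  refl : ∀ t a, R t a a
  trans : ∀ t a b c, R t a b → R t b c → R t a c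
  xrefl : ∀ a, X a a
  xtrans : ∀ a b c, X a b → X b c → X a c
  xr : ∀ t a b, X a b → R t a b
  closed : ∀ C : Set Z, C.Nonempty → #C ≤ μ → (∀ a ∈ C, ∀ b ∈ C, X a b ∨ X b a) →
    ∃ b, ∀ a ∈ C, X b a
  mix : ∀ t a b, R t a b → ∃ a', X a' b ∧ R t a' a ∧ R t a a'
  cc : ∀ B : Set (P × Z), (∀ p ∈ B, ∀ q ∈ B, p ≠ q → ¬ ∃ r, le2 le R r p ∧ le2 le R r q) →
    #B ≤ Order.succ μ
  size : #Z ≤ Order.succ (Order.succ μ)

/-- the restriction of a relation to a subset -/
def leD {Q : Type u} (le : Q → Q → Prop) (D : Set Q) (a b : ↥D) : Prop := le a.1 b.1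

/-- the restriction of a name to a set of conditions and a set of elements -/
def nmD {Q X : Type u} (D : Set Q) (Y : Set X) (A : X → Set Q) (y : ↥Y) : Set ↥D :=
  {a | a.1 ∈ A y.1}

/-- the restriction of a name of a set of pairs -/
def nmD2 {Q X : Type u} (D : Set Q) (Y : Set X) (A : X × X → Set Q) (y : ↥Y × ↥Y) : Set ↥D :=
  {a | a.1 ∈ A (y.1.1, y.2.1)}

section
variable {Q : Type u} (le : Q → Q → Prop)

/-- `p ⊩ C` is unbounded in `K`, and closed at the points `y` with `cw y` -/
def FOmc {K : Type u} [LinearOrder K] (cw : K → Prop) (C : K → Set Q) (p : Q) : Prop :=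
  (∀ b : K, Exi le (fun y : {y : K // b < y} => Mem le C y.1) p) ∧
  ∀ y : K, cw y → Imp le
    (fun q => ∀ b < y, Exi le (fun z : {z : K // b < z ∧ z < y} => Mem le C z.1) q) (Mem le C y) p

/-- `⊩ S` meets every unbounded subset of `K` which is closed at the points `y` with `cw y` -/
def FStatO {K : Type u} [LinearOrder K] (cw : K → Prop) (S : K → Set Q) : Prop :=
  ∀ (C : K → Set Q) (p : Q), FOmc le cw C p → ∃ q, le q p ∧ ∃ y, Mem le C y q ∧ Mem le S y q

/-- `⊩` every colouring of the ladders `A_a`, `a ∈ S`, is uniformized by a function on `K` (this is the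
form of the field `unif` of `Fo`) -/
def FUnK {K : Type u} [LinearOrder K] (S : K → Set Q) (A : K × K → Set Q) : Prop :=
  ∀ (c : K × K → Set Q) (p : Q), ∃ q, le q p ∧ ∃ f : K → Set Q, ∀ r a, le r q →
    Mem le S a r → ∃ s, le s r ∧ ∃ b < a, ∀ y, b < y → y < a →
      Imp le (Mem le A (a, y)) (Iff' le (Mem le f y) (Mem le c (a, y))) s

end

end Pool.Agent.UlM
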