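import Pool.Agent.Lib.UlM.Crl

/-!
# Muc: `#(x ∩ κ^{+ω}) = (x ∩ κ)^{+ω}`

PROOF. See the last part of the header of `Crl`. In detail: for `n`, every `T_n : Type u` with `#T_n = succ^[n] κ` and every injective
`e_n : T_n → W`: for almost all `x`, `#(Tr e_n x) = succ^[n] #(Tr e₀ x)`; induction on `n` (`Function.iterate_succ_apply'`); for `n = 0`
`tr_le` in both directions; step: choose any `T_n ⊆ T_{n+1}` (a subset of cardinality `succ^[n] κ`: `Cardinal.le_mk_iff_exists_set`)
with the restricted `e`; `tr_succ` (`ℵ₀ ≤ κ ≤ succ^[n] κ`).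
-/

set_option autoImplicit false
universe u

namespace Pool.Agent.UlM

open Cardinal Filter

private theorem Muc_le_iter (c : Cardinal.{u}) (n : ℕ) : (n : Cardinal.{u}) ≤ (Order.succ^[n]) c := by
  induction n with
  | zero => simp
  | succ n ih =>
    rw [Function.iterate_succ_apply', Nat.cast_succ, ← Cardinal.succ_natCast]
    exact Order.succ_le_succ ih

private theorem Muc_sum (c : Cardinal.{u}) :
    Cardinal.sum (fun n : ℕ => (Order.succ^[n]) c) = mu c := by
  have hb : BddAbove (Set.range (fun n : ℕ => (Order.succ^[n]) c)) := Cardinal.bddAbove_of_small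
  have h0 : ℵ₀ ≤ mu c := by
    rw [Cardinal.aleph0_le]
    intro n
    exact (Muc_le_iter c n).trans (le_ciSup hb n)
  apply le_antisymm
  · have h := Cardinal.sum_le_lift_mk_mul_iSup_lift (fun n : ℕ => (Order.succ^[n]) c)
    refine h.trans ?_
    simp only [Cardinal.mk_nat, Cardinal.lift_aleph0, Cardinal.lift_uzero]
    exact (Cardinal.mul_eq_right h0 h0 Cardinal.aleph0_ne_zero).le
  · exact ciSup_le' fun n => Cardinal.le_sum (fun n : ℕ => (Order.succ^[n]) c) n

variable {κ : Cardinal.{u}} {W : Type u} {U : Ultrafilter (Set W)} (hU : NormalFine κ W U)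
include hU

private theorem Muc_iter (hκ : ℵ₀ < κ) {T₀ : Type u} {e₀ : T₀ → W}
    (he₀ : Function.Injective e₀) (h₀ : #T₀ = κ) (n : ℕ) :
    ∀ (T : Type u) (e : T → W), Function.Injective e → #T = (Order.succ^[n]) κ →
      ∀ᶠ x in (U : Filter (Set W)), #(Tr e x) = (Order.succ^[n]) #(Tr e₀ x) := by
  induction n with
  | zero =>
    intro T e he h
    have h' : #T = #T₀ := by rw [h, h₀]; rfl
    filter_upwards [tr_le hU he he₀ h'.le, tr_le hU he₀ he h'.ge] with x h1 h2
    exact le_antisymm h1 h2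
  | succ n ih =>
    intro T e he h
    rw [Function.iterate_succ_apply'] at h
    have hle : (Order.succ^[n]) κ ≤ #T := by rw [h]; exact Order.le_succ _
    obtain ⟨X, hX⟩ := Cardinal.le_mk_iff_exists_set.1 hle
    have heX : Function.Injective (fun a : X => e a) := fun a b hab => Subtype.ext (he hab)
    have h0 : ℵ₀ ≤ #X := by
      rw [hX]
      refine hκ.le.trans ?_
      exact Function.id_le_iterate_of_id_le (fun c => Order.le_succ c) n κ
    filter_upwards [tr_succ hU heX he h0 (by rw [hX]; exact h), ih X _ heX hX] with x h1 h2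
    rw [h1, h2, Function.iterate_succ_apply']

theorem tr_mu (hκ : ℵ₀ < κ) {T₀ T : Type u} {e₀ : T₀ → W} {e : T → W}
    (he₀ : Function.Injective e₀) (he : Function.Injective e) (h₀ : #T₀ = κ) (h : #T = mu κ) :
    ∀ᶠ x in (U : Filter (Set W)), #(Tr e x) = mu #(Tr e₀ x) := by
  -- a decomposition of `T`
  have hc : #T = #(Σ n : ℕ, ((Order.succ^[n]) κ).out) := by
    rw [Cardinal.mk_sigma, h, ← Muc_sum]
    congr 1
    funext n
    rw [Cardinal.mk_out]
  obtain ⟨g⟩ := Cardinal.eq.1 hc
  have hall : ∀ᶠ x in (U : Filter (Set W)), ∀ n : ULift.{u} ℕ,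
      #(Tr (fun a : ((Order.succ^[n.down]) κ).out => e (g.symm ⟨n.down, a⟩)) x) =
        (Order.succ^[n.down]) #(Tr e₀ x) := by
    refine hU.complete (ULift.{u} ℕ) _ ?_ ?_
    · rw [Cardinal.mk_uLift, Cardinal.mk_nat, Cardinal.lift_aleph0]
      exact hκ
    · intro n
      refine Muc_iter hU hκ he₀ h₀ n.down _ _ ?_ (Cardinal.mk_out _)
      intro a b hab
      have h1 := g.symm.injective (he hab)
      have h2 := Sigma.mk.inj h1
      exact eq_of_heq h2.2
  filter_upwards [hall] with x hx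
  let F : (Σ n : ℕ, Tr (fun a : ((Order.succ^[n]) κ).out => e (g.symm ⟨n, a⟩)) x) → Tr e x :=
    fun s => ⟨g.symm ⟨s.1, s.2.1⟩, s.2.2⟩
  have hF : Function.Bijective F := by
    constructor
    · rintro ⟨n, a, ha⟩ ⟨n', a', ha'⟩ hs
      have h1 : g.symm ⟨n, a⟩ = g.symm ⟨n', a'⟩ := congrArg Subtype.val hs
      have h2 := g.symm.injective h1
      cases h2
      rfl
    · rintro ⟨t, ht⟩
      refine ⟨⟨(g t).1, (g t).2, ?_⟩, ?_⟩
      · show e (g.symm ⟨(g t).1, (g t).2⟩) ∈ x
        have h1 : g.symm ⟨(g t).1, (g t).2⟩ = t := g.symm_apply_apply t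
        rw [h1]
        exact ht
      · exact Subtype.ext (g.symm_apply_apply t)
  rw [← Cardinal.mk_congr (Equiv.ofBijective F hF), Cardinal.mk_sigma, ← Muc_sum]
  congr 1
  funext n
  exact hx ⟨n⟩

end Pool.Agent.UlM
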