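import Pool.Agent.Lib.UlM.Prj

/-!
# Gbl: GCH in a two step extension by a block

PROOF. `Q = P × Z` with `le2 le R` is a preorder (`le2_refl`, `le2_trans`). `gch_blk`, case `#I ≤ μ`: `q = z`, `J = (I → Set P)`,
`γ (s', y) = {w | Mem le s' y w.1}`; `#J = 2 ^ (#I * #P) ≤ 2 ^ #I = succ #I`. Given `s`, `r = (t, b)`: `red_name` (with `ν = μ`) gives `a`, `X a b`, and
`s'`; `r' = (t, a)` (`xr`). For `(t₁, a₁)` below `(t, a)`: `R t₁ a₁ a`, so `Mem s y (t₁, a₁) ↔ Mem le s' y t₁`, and this is `Mem γ (s', y) (t₁, a₁)` (the set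
`{w | Mem le s' y w.1}` is closed under stronger conditions; conversely if densely below `(t₁, a₁)` conditions are below
elements of it, then `Mem le s' y t₁` by `Mem_loc`, using `(t₂, a₁) ≤ (t₁, a₁)` for `t₂ ≤ t₁`).
Case `#I = succ μ` (`μ < #I < succ (succ μ)`): `J = {s : I → Set Q // ∀ y, #(s y) ≤ succ μ}`; `#Q ≤ succ (succ μ)` (`#P ≤ μ`, `size`), the number of
subsets of `Q` with at most `succ μ` elements is at most `(succ (succ μ)) ^ (succ μ) = (2 ^ succ μ) ^ succ μ = 2 ^ succ μ = succ (succ μ)` (images of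
functions from a set of cardinality `succ μ`, and the empty set), so `#J ≤ (2 ^ succ μ) ^ succ μ = succ #I`. Every name is equivalent to such
a name: let `s' y` be a maximal (Zorn) set of pairwise incompatible elements below elements of `s y`; `cc`: `#(s' y) ≤ succ μ`; and
`Mem s y w ↔ Mem s' y w` for all `w` (maximality).
Case `#I ≥ succ (succ μ)`: `#Q ≤ #I`, `gch_small`.
`gch_two`: for `#I ≤ μ`: `gch_prj` with `π = Prod.fst` (`lift`: `(t', a)` for `t' ≤ t`), `hred` by `red_name`, and `hg I`; for `#I > μ`: `gch_blk`.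
-/

set_option autoImplicit false
universe u

namespace Pool.Agent.UlM

open Cardinal Filter Pool.Agent.PolF Pool.Agent.UlB

/-- a maximal set of pairwise incompatible conditions in an open set -/
private theorem gbl_anti {Q : Type u} (L : Q → Q → Prop) (hr : ∀ p, L p p) (U : Set Q) :
    ∃ m : Set Q, m ⊆ U ∧ (∀ p ∈ m, ∀ q ∈ m, p ≠ q → ¬ ∃ r, L r p ∧ L r q) ∧
      ∀ w ∈ U, ∃ d ∈ m, ∃ r, L r w ∧ L r d := by
  obtain ⟨m, hm⟩ := zorn_subset {B : Set Q | B ⊆ U ∧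
      ∀ p ∈ B, ∀ q ∈ B, p ≠ q → ¬ ∃ r, L r p ∧ L r q} (by
    intro c hc hch
    refine ⟨⋃₀ c, ⟨Set.sUnion_subset fun B hB => (hc hB).1, ?_⟩,
      fun s hs => Set.subset_sUnion_of_mem hs⟩
    rintro p ⟨B, hB, hpB⟩ q ⟨C, hC, hqC⟩ hpq
    rcases hch.total hB hC with h | h
    · exact (hc hC).2 p (h hpB) q hqC hpq
    · exact (hc hB).2 p hpB q (h hqC) hpq)
  refine ⟨m, hm.prop.1, hm.prop.2, ?_⟩
  intro w hw
  by_contra hcon
  push Not at hcon
  have h1 : insert w m ∈ {B : Set Q | B ⊆ U ∧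
      ∀ p ∈ B, ∀ q ∈ B, p ≠ q → ¬ ∃ r, L r p ∧ L r q} := by
    refine ⟨Set.insert_subset hw hm.prop.1, ?_⟩
    rintro p (rfl | hp) q (rfl | hq) hpq
    · exact absurd rfl hpq
    · rintro ⟨r, h1, h2⟩
      exact hcon q hq r h1 h2
    · rintro ⟨r, h1, h2⟩
      exact hcon p hp r h2 h1
    · exact hm.prop.2 p hp q hq hpq
  have h2 : w ∈ m := hm.le_of_ge h1 (Set.subset_insert _ _) (Set.mem_insert _ _)
  exact hcon w h2 w (hr w) (hr w)

/-- every name is equivalent to a name with antichains -/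
private theorem gbl_name {Q Y : Type u} (L : Q → Q → Prop) (hr : ∀ p, L p p)
    (ht : ∀ p q r, L p q → L q r → L p r) {c : Cardinal.{u}}
    (hcc : ∀ B : Set Q, (∀ p ∈ B, ∀ q ∈ B, p ≠ q → ¬ ∃ r, L r p ∧ L r q) → #B ≤ c)
    (s : Y → Set Q) : ∃ s' : Y → Set Q, (∀ y, #(s' y) ≤ c) ∧
      ∀ y w, Mem L s y w ↔ Mem L s' y w := by
  choose m hm1 hm2 hm3 using fun y : Y => gbl_anti L hr {w | ∃ d ∈ s y, L w d}
  refine ⟨m, fun y => hcc _ (hm2 y), fun y w => ⟨fun hw w1 hw1 => ?_, fun hw w1 hw1 => ?_⟩⟩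
  · obtain ⟨w2, h2, d, hd, h3⟩ := hw w1 hw1
    obtain ⟨d', hd', r, h4, h5⟩ := hm3 y w2 ⟨d, hd, h3⟩
    exact ⟨r, ht _ _ _ h4 h2, d', hd', h5⟩
  · obtain ⟨w2, h2, d', hd', h3⟩ := hw w1 hw1
    obtain ⟨d, hd, h4⟩ := hm1 y hd'
    exact ⟨w2, h2, d, hd, ht _ _ _ h3 h4⟩

variable {P Z : Type u} {le : P → P → Prop} {R : P → Z → Z → Prop} {X : Z → Z → Prop}
  {μ : Cardinal.{u}} (hr : ∀ p, le p p) (ht : ∀ p q r, le p q → le q r → le p r)
  (h : IsBlk le R X μ) (hμ : ℵ₀ ≤ μ) (hP : #P ≤ μ)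
  (hG : ∀ c : Cardinal.{u}, ℵ₀ ≤ c → (2 : Cardinal.{u}) ^ c = Order.succ c)
include hr ht h hμ hP hG

theorem gch_blk {I : Type u} (hI : Infinite I) (hPI : #P ≤ #I) (z : P × Z) :
    FGchAt (le2 le R) I z := by
  have tr : ∀ z : P × Z, le2 le R z z := le2_refl hr h.tl
  have tt : ∀ z w v : P × Z, le2 le R z w → le2 le R w v → le2 le R z v := le2_trans ht h.tl
  have hI0 : ℵ₀ ≤ #I := aleph0_le_mk I
  rcases le_or_gt (#I) μ with hIμ | hIμ
  · refine ⟨z, tr z, (I → Set P), fun x => {w | Mem le x.1 x.2 w.1}, ?_, ?_⟩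
    · rw [← power_def, mk_set, ← power_mul]
      refine (power_le_power_left two_ne_zero (mul_le_of_le hI0 hPI le_rfl)).trans ?_
      rw [hG _ hI0]
    · rintro s ⟨t, b⟩ -
      obtain ⟨a, hab, s', hs'⟩ := red_name hr ht h.tl hμ hP hIμ s b
      refine ⟨(t, a), ⟨hr t, h.xr _ _ _ hab⟩, s', ?_⟩
      rintro y ⟨t1, a1⟩ ⟨h1, h2⟩
      rw [hs' y t1 a1 h2]
      constructor
      · intro hm w hw
        exact ⟨w, tr w, w, Mem_down ht hw.1 hm, tr w⟩
      · intro hm t2 ht2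
        obtain ⟨r, h3, v, hv, h4⟩ := hm (t2, a1) ⟨ht2, h.refl _ _⟩
        have h5 : Mem le s' y r.1 := Mem_down ht h4.1 hv
        obtain ⟨r2, h6, d, hd, h7⟩ := h5 r.1 (hr _)
        exact ⟨r2, ht _ _ _ h6 h3.1, d, hd, h7⟩
  · have hI1 : Order.succ μ ≤ #I := Order.succ_le_of_lt hIμ
    have hinf : ℵ₀ ≤ Order.succ μ := hμ.trans (Order.le_succ μ)
    have hQ : #(P × Z) ≤ Order.succ (Order.succ μ) := by
      rw [mk_prod, lift_id, lift_id]
      exact mul_le_of_le (hinf.trans (Order.le_succ _))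
        (hP.trans ((Order.le_succ μ).trans (Order.le_succ _))) h.size
    refine ⟨z, tr z, {c : I → Set (P × Z) // ∀ y, #(c y) ≤ Order.succ μ},
      fun x => x.1.1 x.2, ?_, ?_⟩
    · have h1 : #{c : I → Set (P × Z) // ∀ y, #(c y) ≤ Order.succ μ} ≤
          #(I → {t : Set (P × Z) // #t ≤ Order.succ μ}) :=
        mk_le_of_injective (f := fun c y => ⟨c.1 y, c.2 y⟩) (by
          intro c d h
          apply Subtype.ext
          funext y
          exact congrArg Subtype.val (congrFun h y))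
      have h2 : #{t : Set (P × Z) // #t ≤ Order.succ μ} ≤
          (2 : Cardinal.{u}) ^ Order.succ μ := by
        refine (mk_bounded_set_le _ _).trans ?_
        have h3 : max #(P × Z) ℵ₀ ≤ (2 : Cardinal.{u}) ^ Order.succ μ := by
          rw [hG _ hinf]
          exact max_le hQ (hinf.trans (Order.le_succ _))
        refine (power_le_power_right h3).trans ?_
        rw [← power_mul, mul_eq_self hinf]
      refine h1.trans ?_
      rw [← power_def]
      refine (power_le_power_right h2).trans ?_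
      rw [← power_mul, mul_eq_right hI0 hI1 (aleph0_pos.trans_le hinf).ne', hG _ hI0]
    · intro s r _
      obtain ⟨c', hc', hm⟩ := gbl_name (le2 le R) tr tt h.cc s
      exact ⟨r, tr r, ⟨c', hc'⟩, fun y w _ => hm y w⟩

theorem gch_two (hg : FGch le) : FGch (le2 le R) := by
  have tr : ∀ z : P × Z, le2 le R z z := le2_refl hr h.tl
  have tt : ∀ z w v : P × Z, le2 le R z w → le2 le R w v → le2 le R z v := le2_trans ht h.tl
  rw [fgch_iff]
  intro I z hI
  rcases le_or_gt (#I) μ with hIμ | hIμ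
  · have hπ : IsPrj (le2 le R) le (Prod.fst : P × Z → P) :=
      ⟨fun g h h1 => h1.1, fun g q hq => ⟨(q, g.2), ⟨hq, h.refl _ _⟩, hr q⟩⟩
    refine gch_prj tr tt hr ht hπ ?_ z (hg I z.1 hI)
    rintro s ⟨t, b⟩
    obtain ⟨a, hab, s', hs'⟩ := red_name hr ht h.tl hμ hP hIμ s b
    refine ⟨(t, a), ⟨hr t, h.xr _ _ _ hab⟩, s', ?_⟩
    rintro ⟨t1, a1⟩ ⟨h1, h2⟩ y
    exact hs' y t1 a1 h2
  · exact gch_blk hr ht h hμ hP hG hI (hP.trans hIμ.le) z

end Pool.Agent.UlM
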