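import Pool.Agent.Lib.UlM.Defs

/-!
# Rul: rewriting rules for 'for almost all `x`'

PROOF. `all_iff`: (→) for `t`, intersect with `fine (e t)`. (←) `normal` for `φ' w x := ∀ t, e t = w → φ x t`; for a given
`w` this is either vacuous or, `e` being injective, the statement for one `t`. `ex_iff`: negate (`Ultrafilter.eventually_not`) and
use `all_iff`. `fun_ex`: choose `f_x` for `x` in the event (classical; the event is not empty, so some function exists for the
other `x`). For `t : T`: for almost all `x`, `t ∈ Tr e x` (`fine`) and `f_x t ∈ Tr e' x`, i.e. `∃ s ∈ Tr e' x, f_x t = s`;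
by `ex_iff` there is `f t` with `f_x t = f t` for almost all `x`. By `all_iff`, for almost all `x`, `f_x` and `f` agree on
`Tr e x`; use `hφ`. `set_ex`: choose `X_x`; `X = {t | ∀ᶠ x, t ∈ X_x}`; for each `t`, for almost all `x`, `t ∈ X_x ↔ t ∈ X`
(ultrafilter), so by `all_iff` `X_x = X ∩ Tr e x` for almost all `x`. `rel_ex`: the same for two types, applying `all_iff` twice.
-/

set_option autoImplicit false
universe u

namespace Pool.Agent.UlM

open Cardinal Filter

private theorem rul_choose {W : Type u} {U : Ultrafilter (Set W)} {A : Type u}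
    (ψ : Set W → A → Prop) (h : ∀ᶠ x in (U : Filter (Set W)), ∃ a, ψ x a) :
    ∃ F : Set W → A, ∀ᶠ x in (U : Filter (Set W)), ψ x (F x) := by
  classical
  obtain ⟨x0, a0, -⟩ := h.exists
  refine ⟨fun x => if hx : ∃ a, ψ x a then hx.choose else a0, ?_⟩
  filter_upwards [h] with x hx
  rw [dif_pos hx]
  exact hx.choose_spec

private theorem rul_iff {W : Type u} {U : Ultrafilter (Set W)} (ψ : Set W → Prop) :
    ∀ᶠ x in (U : Filter (Set W)), (ψ x ↔ ∀ᶠ y in (U : Filter (Set W)), ψ y) := by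
  by_cases h : ∀ᶠ y in (U : Filter (Set W)), ψ y
  · filter_upwards [h] with x hx
    exact ⟨fun _ => h, fun _ => hx⟩
  · filter_upwards [Ultrafilter.eventually_not.2 h] with x hx
    exact ⟨fun h1 => absurd h1 hx, fun h1 => absurd h1 h⟩

variable {κ : Cardinal.{u}} {W : Type u} {U : Ultrafilter (Set W)} (hU : NormalFine κ W U)
include hU

theorem all_iff {T : Type u} {e : T → W} (he : Function.Injective e) (φ : Set W → T → Prop) :
    (∀ᶠ x in (U : Filter (Set W)), ∀ t ∈ Tr e x, φ x t) ↔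
      ∀ t, ∀ᶠ x in (U : Filter (Set W)), φ x t := by
  constructor
  · intro h t
    filter_upwards [h, hU.fine (e t)] with x hx ht using hx t ht
  · intro h
    have h1 := hU.normal (fun w x => ∀ t, e t = w → φ x t) (fun w => by
      by_cases hw : ∃ t, e t = w
      · obtain ⟨t, ht⟩ := hw
        filter_upwards [h t] with x hx t' ht'
        rw [he (ht'.trans ht.symm)]
        exact hx
      · exact Eventually.of_forall fun x t ht => absurd ⟨t, ht⟩ hw)
    filter_upwards [h1] with x hx t ht using hx (e t) ht t rfl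

theorem ex_iff {T : Type u} {e : T → W} (he : Function.Injective e) (φ : Set W → T → Prop) :
    (∀ᶠ x in (U : Filter (Set W)), ∃ t ∈ Tr e x, φ x t) ↔
      ∃ t, ∀ᶠ x in (U : Filter (Set W)), φ x t := by
  constructor
  · intro h
    by_contra hcon
    have h2 : ∀ t, ∀ᶠ x in (U : Filter (Set W)), ¬ φ x t := fun t =>
      Ultrafilter.eventually_not.2 fun h => hcon ⟨t, h⟩
    have h3 := (all_iff hU he fun x t => ¬ φ x t).2 h2
    obtain ⟨x, ⟨t, ht, h4⟩, h5⟩ := (h.and h3).exists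
    exact h5 t ht h4
  · rintro ⟨t, h⟩
    filter_upwards [h, hU.fine (e t)] with x h1 h2 using ⟨t, h2, h1⟩

theorem fun_ex {T T' : Type u} {e : T → W} {e' : T' → W} (he : Function.Injective e)
    (he' : Function.Injective e') (φ : Set W → (T → T') → Prop)
    (hφ : ∀ x f g, (∀ t ∈ Tr e x, f t = g t) → φ x f → φ x g)
    (h : ∀ᶠ x in (U : Filter (Set W)), ∃ f : T → T', (∀ t ∈ Tr e x, f t ∈ Tr e' x) ∧ φ x f) :
    ∃ f : T → T', ∀ᶠ x in (U : Filter (Set W)), φ x f := by
  classical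
  obtain ⟨F, hF⟩ := rul_choose (U := U)
    (fun x (f : T → T') => (∀ t ∈ Tr e x, f t ∈ Tr e' x) ∧ φ x f) h
  have h1 : ∀ t, ∃ s, ∀ᶠ x in (U : Filter (Set W)), F x t = s := by
    intro t
    refine (ex_iff hU he' fun x s => F x t = s).1 ?_
    filter_upwards [hF, hU.fine (e t)] with x hx ht using ⟨F x t, hx.1 t ht, rfl⟩
  choose f hf using h1
  have h2 := (all_iff hU he fun x t => F x t = f t).2 hf
  refine ⟨f, ?_⟩
  filter_upwards [hF, h2] with x h3 h4 using hφ x (F x) f h4 h3.2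

theorem set_ex {T : Type u} {e : T → W} (he : Function.Injective e) (φ : Set W → Set T → Prop)
    (h : ∀ᶠ x in (U : Filter (Set W)), ∃ X ⊆ Tr e x, φ x X) :
    ∃ X : Set T, ∀ᶠ x in (U : Filter (Set W)), φ x (X ∩ Tr e x) := by
  obtain ⟨F, hF⟩ := rul_choose (U := U) (fun x (X : Set T) => X ⊆ Tr e x ∧ φ x X) h
  have h1 : ∀ t, ∀ᶠ x in (U : Filter (Set W)),
      (t ∈ F x ↔ ∀ᶠ y in (U : Filter (Set W)), t ∈ F y) := fun t => rul_iff (fun x => t ∈ F x)
  have h2 := (all_iff hU he fun x t => (t ∈ F x ↔ ∀ᶠ y in (U : Filter (Set W)), t ∈ F y)).2 h1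
  refine ⟨{t | ∀ᶠ y in (U : Filter (Set W)), t ∈ F y}, ?_⟩
  filter_upwards [hF, h2] with x h3 h4
  have e1 : {t | ∀ᶠ y in (U : Filter (Set W)), t ∈ F y} ∩ Tr e x = F x := by
    ext t
    constructor
    · rintro ⟨h5, h6⟩
      exact (h4 t h6).2 h5
    · intro h5
      exact ⟨(h4 t (h3.1 h5)).1 h5, h3.1 h5⟩
  rw [e1]
  exact h3.2

theorem rel_ex {T T' : Type u} {e : T → W} {e' : T' → W} (he : Function.Injective e)
    (he' : Function.Injective e') (φ : Set W → (T → T' → Prop) → Prop)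
    (hφ : ∀ x X Y, (∀ t ∈ Tr e x, ∀ t' ∈ Tr e' x, (X t t' ↔ Y t t')) → φ x X → φ x Y)
    (h : ∀ᶠ x in (U : Filter (Set W)), ∃ X : T → T' → Prop, φ x X) :
    ∃ X : T → T' → Prop, ∀ᶠ x in (U : Filter (Set W)), φ x X := by
  obtain ⟨F, hF⟩ := rul_choose (U := U) (fun x (X : T → T' → Prop) => φ x X) h
  refine ⟨fun t t' => ∀ᶠ y in (U : Filter (Set W)), F y t t', ?_⟩
  have h2 := (all_iff hU he fun x t => ∀ t' ∈ Tr e' x,
    (F x t t' ↔ ∀ᶠ y in (U : Filter (Set W)), F y t t')).2 fun t =>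
      (all_iff hU he' fun x t' => (F x t t' ↔ ∀ᶠ y in (U : Filter (Set W)), F y t t')).2
        fun t' => rul_iff (fun x => F x t t')
  filter_upwards [hF, h2] with x h3 h4 using hφ x (F x) _ h4 h3

theorem rel3_ex {T T' T'' : Type u} {e : T → W} {e' : T' → W} {e'' : T'' → W}
    (he : Function.Injective e) (he' : Function.Injective e') (he'' : Function.Injective e'')
    (φ : Set W → (T → T' → T'' → Prop) → Prop)
    (hφ : ∀ x X Y, (∀ t ∈ Tr e x, ∀ t' ∈ Tr e' x, ∀ t'' ∈ Tr e'' x, (X t t' t'' ↔ Y t t' t'')) →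
      φ x X → φ x Y)
    (h : ∀ᶠ x in (U : Filter (Set W)), ∃ X : T → T' → T'' → Prop, φ x X) :
    ∃ X : T → T' → T'' → Prop, ∀ᶠ x in (U : Filter (Set W)), φ x X := by
  obtain ⟨F, hF⟩ := rul_choose (U := U) (fun x (X : T → T' → T'' → Prop) => φ x X) h
  refine ⟨fun t t' t'' => ∀ᶠ y in (U : Filter (Set W)), F y t t' t'', ?_⟩
  have h2 := (all_iff hU he fun x t => ∀ t' ∈ Tr e' x, ∀ t'' ∈ Tr e'' x,
    (F x t t' t'' ↔ ∀ᶠ y in (U : Filter (Set W)), F y t t' t'')).2 fun t =>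
      (all_iff hU he' fun x t' => ∀ t'' ∈ Tr e'' x,
        (F x t t' t'' ↔ ∀ᶠ y in (U : Filter (Set W)), F y t t' t'')).2 fun t' =>
        (all_iff hU he'' fun x t'' =>
          (F x t t' t'' ↔ ∀ᶠ y in (U : Filter (Set W)), F y t t' t'')).2
          fun t'' => rul_iff (fun x => F x t t' t'')
  filter_upwards [hF, h2] with x h3 h4 using hφ x (F x) _ h4 h3

/-- closure under a function -/
theorem closed_fun {T T' : Type u} {e : T → W} {e' : T' → W} (he : Function.Injective e)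
    (f : T → T') : ∀ᶠ x in (U : Filter (Set W)), ∀ t ∈ Tr e x, f t ∈ Tr e' x := by
  exact (all_iff hU he _).2 fun t => hU.fine (e' (f t))

theorem closed_fun2 {T T' T'' : Type u} {e : T → W} {e' : T' → W} {e'' : T'' → W}
    (he : Function.Injective e) (he' : Function.Injective e') (f : T → T' → T'') :
    ∀ᶠ x in (U : Filter (Set W)), ∀ t ∈ Tr e x, ∀ t' ∈ Tr e' x, f t t' ∈ Tr e'' x := by
  exact (all_iff hU he fun x t => ∀ t' ∈ Tr e' x, f t t' ∈ Tr e'' x).2 fun t =>
    (all_iff hU he' fun x t' => f t t' ∈ Tr e'' x).2 fun t' => hU.fine (e'' (f t t'))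

theorem closed_fun3 {T T' T'' T₃ : Type u} {e : T → W} {e' : T' → W} {e'' : T'' → W} {e₃ : T₃ → W}
    (he : Function.Injective e) (he' : Function.Injective e') (he'' : Function.Injective e'')
    (f : T → T' → T'' → T₃) :
    ∀ᶠ x in (U : Filter (Set W)), ∀ t ∈ Tr e x, ∀ t' ∈ Tr e' x, ∀ t'' ∈ Tr e'' x,
      f t t' t'' ∈ Tr e₃ x := by
  exact (all_iff hU he fun x t => ∀ t' ∈ Tr e' x, ∀ t'' ∈ Tr e'' x, f t t' t'' ∈ Tr e₃ x).2
    fun t => (all_iff hU he' fun x t' => ∀ t'' ∈ Tr e'' x, f t t' t'' ∈ Tr e₃ x).2 fun t' =>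
      (all_iff hU he'' fun x t'' => f t t' t'' ∈ Tr e₃ x).2 fun t'' => hU.fine (e₃ (f t t' t''))

/-- traces of countable sequences, for `ℵ₀ < κ`: closure under a countable family of functions -/
theorem closed_nat {T T' : Type u} {e : T → W} {e' : T' → W} (hκ : ℵ₀ < κ)
    (he : Function.Injective e) (f : ℕ → T → T') :
    ∀ᶠ x in (U : Filter (Set W)), ∀ n, ∀ t ∈ Tr e x, f n t ∈ Tr e' x := by
  have h1 := hU.complete (ULift.{u} ℕ) (fun n x => ∀ t ∈ Tr e x, f n.down t ∈ Tr e' x)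
    (by rw [Cardinal.mk_uLift, Cardinal.mk_nat, Cardinal.lift_aleph0]; exact hκ)
    (fun n => closed_fun hU he (f n.down))
  filter_upwards [h1] with x hx n using hx ⟨n⟩

/-- traces of products -/
theorem tr_prod {T T' : Type u} {e : T → W} {e' : T' → W} {e₂ : T × T' → W}
    (he : Function.Injective e) (he' : Function.Injective e') (he₂ : Function.Injective e₂) :
    ∀ᶠ x in (U : Filter (Set W)), ∀ t t', (t, t') ∈ Tr e₂ x ↔ t ∈ Tr e x ∧ t' ∈ Tr e' x := by
  have h1 := (all_iff hU he₂ fun x p => p.1 ∈ Tr e x ∧ p.2 ∈ Tr e' x).2 fun p =>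
    (hU.fine (e p.1)).and (hU.fine (e' p.2))
  have h2 := closed_fun2 hU (e'' := e₂) he he' (fun t t' => (t, t'))
  filter_upwards [h1, h2] with x h3 h4 t t'
  exact ⟨fun h => h3 _ h, fun h => h4 t h.1 t' h.2⟩

end Pool.Agent.UlM
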