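import Pool.Agent.Lib.UlM.Blk
import Pool.Agent.Lib.UlM.Rul

/-!
# Mrf: reflection of the forcing relation

PROOF. `mem_rf` (and `mem_rf2`, in the same way, with two parameters `a`, `b`): by `all_iff` (for `Q` and `X`) it is enough to fix `a : X`, `p : Q` and to show that for almost all `x` (with
`a`, `p` in the traces; by `fine` this is no restriction) the statement on the subtypes is equivalent to `Mem le A a p`. Unfold
`Mem`: the left side is `∀ q ∈ Tr e x, le q p → ∃ r ∈ Tr e x, le r q ∧ ∃ b ∈ Tr e x, b ∈ A a ∧ le r b`. If `Mem le A a p`,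
choose functions `r, b : Q → Q` giving the witnesses for each `q` and use `closed_fun`. If not `Mem le A a p`, there is `q` with
`le q p` without witnesses at all; for almost all `x`, `q ∈ Tr e x` (`fine`), so the left side fails. `exi_rf`: the same for
`Exi` of a family of statements which are already known to reflect: fix `p`; if `Exi le φ p` choose the functions `r, i` and use
`closed_fun` and `hφ`; otherwise there is `q` with `le q p` such that `¬ φ i r` for all `r` below `q` and all `i`.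
-/

set_option autoImplicit false
universe u

namespace Pool.Agent.UlM

open Cardinal Filter Pool.Agent.PolF Pool.Agent.UlB

variable {κ : Cardinal.{u}} {W : Type u} {U : Ultrafilter (Set W)} (hU : NormalFine κ W U)
  {Q X : Type u} {e : Q → W} {e' : X → W} (he : Function.Injective e) (he' : Function.Injective e')
include hU he he'

omit he' in
private theorem mrf_fix (le : Q → Q → Prop) (B : Set Q) (p : Q) :
    ∀ᶠ x in (U : Filter (Set W)), ∀ hp : p ∈ Tr e x,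
      ((∀ q : ↥(Tr e x), leD le (Tr e x) q ⟨p, hp⟩ → ∃ r : ↥(Tr e x), leD le (Tr e x) r q ∧
        ∃ b : ↥(Tr e x), b.1 ∈ B ∧ leD le (Tr e x) r b) ↔
      (∀ q, le q p → ∃ r, le r q ∧ ∃ b, b ∈ B ∧ le r b)) := by
  by_cases h : ∀ q, le q p → ∃ r, le r q ∧ ∃ b, b ∈ B ∧ le r b
  · have h' : ∀ t : {q : Q // le q p}, ∃ r, le r t.1 ∧ ∃ b, b ∈ B ∧ le r b := fun t => h t.1 t.2
    choose r hr b hb hrb using h'
    have hinj : Function.Injective (fun t : {q : Q // le q p} => e t.1) :=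
      he.comp Subtype.val_injective
    filter_upwards [closed_fun hU (e' := e) hinj r, closed_fun hU (e' := e) hinj b] with x h1 h2 hp
    refine iff_of_true ?_ h
    rintro ⟨q, hq⟩ hqp
    exact ⟨⟨r ⟨q, hqp⟩, h1 ⟨q, hqp⟩ hq⟩, hr ⟨q, hqp⟩, ⟨b ⟨q, hqp⟩, h2 ⟨q, hqp⟩ hq⟩,
      hb ⟨q, hqp⟩, hrb ⟨q, hqp⟩⟩
  · have h' := h
    push Not at h'
    obtain ⟨q, hqp, hq⟩ := h'
    filter_upwards [hU.fine (e q)] with x h1 hp
    refine iff_of_false (fun hM => ?_) h
    obtain ⟨⟨r, hr⟩, h2, ⟨b, hb⟩, h3, h4⟩ := hM ⟨q, h1⟩ hqp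
    exact hq r h2 b h3 h4

theorem mem_rf (le : Q → Q → Prop) (A : X → Set Q) :
    ∀ᶠ x in (U : Filter (Set W)), ∀ (a : ↥(Tr e' x)) (p : ↥(Tr e x)),
      Mem (leD le (Tr e x)) (nmD (Tr e x) (Tr e' x) A) a p ↔ Mem le A a.1 p.1 := by
  have h := (all_iff hU he' (fun x a => ∀ (p : ↥(Tr e x)),
    (∀ q : ↥(Tr e x), leD le (Tr e x) q p → ∃ r : ↥(Tr e x), leD le (Tr e x) r q ∧
        ∃ b : ↥(Tr e x), b.1 ∈ A a ∧ leD le (Tr e x) r b) ↔
      (∀ q, le q p.1 → ∃ r, le r q ∧ ∃ b, b ∈ A a ∧ le r b))).2 fun a => by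
    filter_upwards [(all_iff hU he _).2 fun p => mrf_fix hU he le (A a) p] with x hx p using
      hx p.1 p.2 p.2
  filter_upwards [h] with x hx a p using hx a.1 a.2 p

theorem mem_rf2 (le : Q → Q → Prop) (A : X × X → Set Q) :
    ∀ᶠ x in (U : Filter (Set W)), ∀ (a b : ↥(Tr e' x)) (p : ↥(Tr e x)),
      Mem (leD le (Tr e x)) (nmD2 (Tr e x) (Tr e' x) A) (a, b) p ↔ Mem le A (a.1, b.1) p.1 := by
  have h := (all_iff hU he' (fun x a => ∀ b ∈ Tr e' x, ∀ (p : ↥(Tr e x)),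
    (∀ q : ↥(Tr e x), leD le (Tr e x) q p → ∃ r : ↥(Tr e x), leD le (Tr e x) r q ∧
        ∃ d : ↥(Tr e x), d.1 ∈ A (a, b) ∧ leD le (Tr e x) r d) ↔
      (∀ q, le q p.1 → ∃ r, le r q ∧ ∃ d, d ∈ A (a, b) ∧ le r d))).2 fun a =>
    (all_iff hU he' _).2 fun b => by
      filter_upwards [(all_iff hU he _).2 fun p => mrf_fix hU he le (A (a, b)) p] with x hx p using
        hx p.1 p.2 p.2
  filter_upwards [h] with x hx a b p using hx a.1 a.2 b.1 b.2 p

/-- `φ i p` is a statement on `Q`, `φx x i p` its version on the traces -/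
theorem exi_rf (le : Q → Q → Prop) (φ : X → Q → Prop)
    (φx : ∀ x : Set W, ↥(Tr e' x) → ↥(Tr e x) → Prop)
    (hφ : ∀ᶠ x in (U : Filter (Set W)), ∀ i p, φx x i p ↔ φ i.1 p.1) (J : X → Prop) :
    ∀ᶠ x in (U : Filter (Set W)), ∀ p : ↥(Tr e x),
      Exi (leD le (Tr e x)) (fun i : {i : ↥(Tr e' x) // J i.1} => φx x i.1) p ↔
        Exi le (fun i : {i : X // J i} => φ i.1) p.1 := by
  have key : ∀ p : Q, ∀ᶠ x in (U : Filter (Set W)), ∀ hp : p ∈ Tr e x,
      (Exi (leD le (Tr e x)) (fun i : {i : ↥(Tr e' x) // J i.1} => φx x i.1) ⟨p, hp⟩ ↔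
        Exi le (fun i : {i : X // J i} => φ i.1) p) := by
    intro p
    by_cases h : Exi le (fun i : {i : X // J i} => φ i.1) p
    · have h' : ∀ t : {q : Q // le q p}, ∃ r, le r t.1 ∧ ∃ i : {i : X // J i}, φ i.1 r :=
        fun t => h t.1 t.2
      choose r hr i hi using h'
      have hinj : Function.Injective (fun t : {q : Q // le q p} => e t.1) :=
        he.comp Subtype.val_injective
      filter_upwards [hφ, closed_fun hU (e' := e) hinj r,
        closed_fun hU (e' := e') hinj fun t => (i t).1] with x h0 h1 h2 hp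
      refine iff_of_true ?_ h
      rintro ⟨q, hq⟩ hqp
      exact ⟨⟨r ⟨q, hqp⟩, h1 ⟨q, hqp⟩ hq⟩, hr ⟨q, hqp⟩,
        ⟨⟨(i ⟨q, hqp⟩).1, h2 ⟨q, hqp⟩ hq⟩, (i ⟨q, hqp⟩).2⟩, (h0 _ _).2 (hi ⟨q, hqp⟩)⟩
    · have h' := h
      unfold Exi at h'
      push Not at h'
      obtain ⟨q, hqp, hq⟩ := h'
      filter_upwards [hφ, hU.fine (e q)] with x h0 h1 hp
      refine iff_of_false (fun hM => ?_) h
      obtain ⟨⟨r, hr⟩, h2, ⟨⟨i, hi⟩, hJ⟩, h3⟩ := hM ⟨q, h1⟩ hqp
      exact hq r h2 ⟨i, hJ⟩ ((h0 _ _).1 h3)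
  filter_upwards [(all_iff hU he _).2 key] with x hx p using hx p.1 p.2 p.2

/-- the same with a parameter `b : X` in the restriction of the index -/
theorem exi_rf2 (le : Q → Q → Prop) (φ : X → Q → Prop)
    (φx : ∀ x : Set W, ↥(Tr e' x) → ↥(Tr e x) → Prop)
    (hφ : ∀ᶠ x in (U : Filter (Set W)), ∀ i p, φx x i p ↔ φ i.1 p.1) (J : X → X → X → Prop) :
    ∀ᶠ x in (U : Filter (Set W)), ∀ (b c : ↥(Tr e' x)) (p : ↥(Tr e x)),
      Exi (leD le (Tr e x)) (fun i : {i : ↥(Tr e' x) // J b.1 c.1 i.1} => φx x i.1) p ↔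
        Exi le (fun i : {i : X // J b.1 c.1 i} => φ i.1) p.1 := by
  have h := (all_iff hU he' (fun x b => ∀ c ∈ Tr e' x, ∀ p : ↥(Tr e x),
      Exi (leD le (Tr e x)) (fun i : {i : ↥(Tr e' x) // J b c i.1} => φx x i.1) p ↔
        Exi le (fun i : {i : X // J b c i} => φ i.1) p.1)).2 fun b =>
    (all_iff hU he' _).2 fun c => exi_rf hU he he' le φ φx hφ (J b c)
  filter_upwards [h] with x hx b c p using hx b.1 b.2 c.1 c.2 p

end Pool.Agent.UlM
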