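import Pool.Agent.Lib.UlM.Mrf

/-!
# Rst: reflection of stationarity

PROOF. Suppose not for almost all `x`; then (ultrafilter) for almost all `x` there are a name `C_x : ↥(Tr e' x) → Set ↥(Tr e x)` and
`p_x : ↥(Tr e x)` with `FOmc` and without `q`, `y`. By `ex_iff` `p_x` is constant, `= p`; by `rel_ex` (with `T = K`, `T' = Q`, the
relation `c ∈ C_x a`) there is `C : K → Set Q` such that for almost all `x` `C_x = nmD (Tr e x) (Tr e' x) C`. Then
`FOmc le cw C p`: (1) for `b : K`, by `exi_rf2` (`J b c y := b < y`, with `mem_rf`) at almost every `x` containing `b`;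
(2) for `y : K` with `cw y` and `q` with `le q p` satisfying the premise: at almost every `x` containing `y`, `q` the premise
holds on the traces (`exi_rf2` with `J b c z := b < z ∧ z < c`), so `Mem` holds on the traces, so `Mem le C y q` (`mem_rf`); here, since
the statements are about fixed `b`, `y`, `q`, it is enough to use one `x` in the intersection of the events. So `FStatO` gives
`q`, `y`; for almost all `x` they are in the traces and `mem_rf` for `C` and `S` gives a contradiction.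
-/

set_option autoImplicit false
universe u

namespace Pool.Agent.UlM

open Cardinal Filter Pool.Agent.PolF Pool.Agent.UlB

/-- `x` is bad for the condition `t` and the name `X` -/
private def RstBad {W Q K : Type u} [LinearOrder K] (e : Q → W) (e' : K → W) (le : Q → Q → Prop)
    (cw : K → Prop) (S : K → Set Q) (t : Q) (x : Set W) (X : K → Q → Prop) : Prop :=
  ∃ ht : t ∈ Tr e x,
    FOmc (leD le (Tr e x)) (fun y : ↥(Tr e' x) => cw y.1)
      (nmD (Tr e x) (Tr e' x) fun k => {q | X k q}) ⟨t, ht⟩ ∧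
    ∀ q, leD le (Tr e x) q ⟨t, ht⟩ → ∀ y,
      Mem (leD le (Tr e x)) (nmD (Tr e x) (Tr e' x) fun k => {q | X k q}) y q →
        Mem (leD le (Tr e x)) (nmD (Tr e x) (Tr e' x) S) y q → False

variable {κ : Cardinal.{u}} {W : Type u} {U : Ultrafilter (Set W)} (hU : NormalFine κ W U)
  {Q K : Type u} [LinearOrder K] {e : Q → W} {e' : K → W} (he : Function.Injective e)
  (he' : Function.Injective e')
include hU he he'

theorem stat_rf (le : Q → Q → Prop) (cw : K → Prop) (S : K → Set Q) (h : FStatO le cw S) :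
    ∀ᶠ x in (U : Filter (Set W)), FStatO (leD le (Tr e x)) (fun y : ↥(Tr e' x) => cw y.1)
      (nmD (Tr e x) (Tr e' x) S) := by
  classical
  by_contra hcon
  have h1 : ∀ᶠ x in (U : Filter (Set W)), ¬ FStatO (leD le (Tr e x))
      (fun y : ↥(Tr e' x) => cw y.1) (nmD (Tr e x) (Tr e' x) S) :=
    Ultrafilter.eventually_not.2 hcon
  have h2 : ∀ᶠ x in (U : Filter (Set W)), ∃ t ∈ Tr e x, ∃ X, RstBad e e' le cw S t x X := by
    filter_upwards [h1] with x hx
    unfold FStatO at hx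
    push Not at hx
    obtain ⟨C, p, hC, hp⟩ := hx
    refine ⟨p.1, p.2, fun k q => ∃ (hk : k ∈ Tr e' x) (hq : q ∈ Tr e x),
      (⟨q, hq⟩ : ↥(Tr e x)) ∈ C ⟨k, hk⟩, p.2, ?_⟩
    have e1 : (nmD (Tr e x) (Tr e' x) fun k => {q | ∃ (hk : k ∈ Tr e' x) (hq : q ∈ Tr e x),
        (⟨q, hq⟩ : ↥(Tr e x)) ∈ C ⟨k, hk⟩}) = C := by
      funext y
      ext a
      constructor
      · rintro ⟨_, _, h3⟩
        exact h3
      · intro h3
        exact ⟨y.2, a.2, h3⟩
    rw [e1]
    exact ⟨hC, fun q hq y h3 h4 => hp q hq y h3 h4⟩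
  obtain ⟨p, h3⟩ := (ex_iff hU he _).1 h2
  obtain ⟨X, h4⟩ := rel_ex hU he' he (fun x X => RstBad e e' le cw S p x X) (by
    intro x X Y hXY hX
    have e1 : (nmD (Tr e x) (Tr e' x) fun k => {q | X k q}) =
        nmD (Tr e x) (Tr e' x) fun k => {q | Y k q} := by
      funext y
      ext a
      exact hXY y.1 y.2 a.1 a.2
    obtain ⟨ht, h5, h6⟩ := hX
    rw [e1] at h5 h6
    exact ⟨ht, h5, h6⟩) h3
  set C : K → Set Q := fun k => {q | X k q} with hC
  have hm := mem_rf hU he he' le C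
  have hmS := mem_rf hU he he' le S
  have hE1 := exi_rf2 hU he he' le (fun i p => Mem le C i p)
    (fun x i p => Mem (leD le (Tr e x)) (nmD (Tr e x) (Tr e' x) C) i p) hm (fun b _ y => b < y)
  have hE2 := exi_rf2 hU he he' le (fun i p => Mem le C i p)
    (fun x i p => Mem (leD le (Tr e x)) (nmD (Tr e x) (Tr e' x) C) i p) hm
    (fun b c z => b < z ∧ z < c)
  have hO : FOmc le cw C p := by
    constructor
    · intro b
      obtain ⟨x, ⟨⟨ht, h5, -⟩, h6⟩, hb⟩ := ((h4.and hE1).and (hU.fine (e' b))).exists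
      exact (h6 ⟨b, hb⟩ ⟨b, hb⟩ ⟨p, ht⟩).1 (h5.1 ⟨b, hb⟩)
    · intro y hy q hq hprem
      obtain ⟨x, ⟨⟨⟨⟨ht, h5, -⟩, h6⟩, h7⟩, hyx⟩, hqx⟩ :=
        ((((h4.and hE2).and hm).and (hU.fine (e' y))).and (hU.fine (e q))).exists
      refine (h7 ⟨y, hyx⟩ ⟨q, hqx⟩).1 (h5.2 ⟨y, hyx⟩ hy ⟨q, hqx⟩ hq ?_)
      intro b hb
      exact (h6 b ⟨y, hyx⟩ ⟨q, hqx⟩).2 (hprem b.1 hb)
  obtain ⟨q, hq, y, hy1, hy2⟩ := h C p hO
  obtain ⟨x, ⟨⟨⟨⟨ht, -, h5⟩, h6⟩, h7⟩, hyx⟩, hqx⟩ :=
    ((((h4.and hm).and hmS).and (hU.fine (e' y))).and (hU.fine (e q))).exists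
  exact h5 ⟨q, hqx⟩ hq ⟨y, hyx⟩ ((h6 ⟨y, hyx⟩ ⟨q, hqx⟩).2 hy1) ((h7 ⟨y, hyx⟩ ⟨q, hqx⟩).2 hy2)

end Pool.Agent.UlM
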