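import Pool.Agent.Lib.UlM.Mrf

/-!
# Run: reflection of uniformization

PROOF. Suppose not for almost all `x`; then for almost all `x` there are a colouring `c_x` (a name for a set of pairs of
elements of `Tr e' x`) and `p_x : ↥(Tr e x)` such that no `q` is as required. By `ex_iff` `p_x = p` is constant. By `rel3_ex`
(`T = K`, `T' = K`, `T'' = Q`, the relation `q ∈ c_x (a, b)`) there is `c : K × K → Set Q` such that for almost all `x`
`c_x = nmD2 (Tr e x) (Tr e' x) c`. `h c p` gives `q`, `f : K → Set Q`. For almost all `x`: `q` is in the trace, and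
`nmD (Tr e x) (Tr e' x) f` works: let `r`, `a` be in the traces, `le r q`, `Mem S a r` on the traces, so (`mem_rf`)
`Mem le S a r`; the witnesses `s`, `b` depend on `(r, a)`: choose functions `Q → K → Q`, `Q → K → K` and use `closed_fun2`; the
property `Imp .. s` on the traces, for `y ∈ Tr e' x`, `b < y < a`, follows from the one on `Q` by `mem_rf2` for `A` and `c` and
`mem_rf` for `f` (unfold `Imp`, `Iff'`: conditions `s' ≤ s` in the trace). A contradiction.
-/

set_option autoImplicit false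
universe u

namespace Pool.Agent.UlM

open Cardinal Filter Pool.Agent.PolF Pool.Agent.UlB

/-- the conclusion of the uniformization statement on the traces, for the colouring `X` and the
condition `p` -/
private def RunGood {W Q K : Type u} [LinearOrder K] (e : Q → W) (e' : K → W) (le : Q → Q → Prop)
    (S : K → Set Q) (A : K × K → Set Q) (x : Set W) (X : K → K → Q → Prop) (p : ↥(Tr e x)) : Prop :=
  ∃ q : ↥(Tr e x), leD le (Tr e x) q p ∧ ∃ f : ↥(Tr e' x) → Set ↥(Tr e x), ∀ r a,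
    leD le (Tr e x) r q → Mem (leD le (Tr e x)) (nmD (Tr e x) (Tr e' x) S) a r →
    ∃ s, leD le (Tr e x) s r ∧ ∃ b < a, ∀ y, b < y → y < a →
      Imp (leD le (Tr e x)) (Mem (leD le (Tr e x)) (nmD2 (Tr e x) (Tr e' x) A) (a, y))
        (Iff' (leD le (Tr e x)) (Mem (leD le (Tr e x)) f y)
          (Mem (leD le (Tr e x)) (nmD2 (Tr e x) (Tr e' x) (fun ab => {q | X ab.1 ab.2 q}))
            (a, y))) s

variable {κ : Cardinal.{u}} {W : Type u} {U : Ultrafilter (Set W)} (hU : NormalFine κ W U)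
  {Q K : Type u} [LinearOrder K] {e : Q → W} {e' : K → W} (he : Function.Injective e)
  (he' : Function.Injective e')
include hU he he'

theorem uni_rf (le : Q → Q → Prop) (S : K → Set Q) (A : K × K → Set Q) (h : FUnK le S A) :
    ∀ᶠ x in (U : Filter (Set W)), FUnK (leD le (Tr e x)) (nmD (Tr e x) (Tr e' x) S)
      (nmD2 (Tr e x) (Tr e' x) A) := by
  classical
  by_contra hcon
  have h1 : ∀ᶠ x in (U : Filter (Set W)), ∃ X : K → K → Q → Prop, ∃ p : ↥(Tr e x),
      ¬ RunGood e e' le S A x X p := by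
    have h0 := Ultrafilter.eventually_not.2 hcon
    filter_upwards [h0] with x hx
    by_contra hno
    push Not at hno
    apply hx
    intro c p
    obtain ⟨q, hq, f, hf⟩ := hno
      (fun a b q => ∃ (ha : a ∈ Tr e' x) (hb : b ∈ Tr e' x) (hq : q ∈ Tr e x),
        (⟨q, hq⟩ : ↥(Tr e x)) ∈ c (⟨a, ha⟩, ⟨b, hb⟩)) p
    refine ⟨q, hq, f, ?_⟩
    have hc : nmD2 (Tr e x) (Tr e' x) (fun ab => {q | ∃ (ha : ab.1 ∈ Tr e' x) (hb : ab.2 ∈ Tr e' x)
        (hq : q ∈ Tr e x), (⟨q, hq⟩ : ↥(Tr e x)) ∈ c (⟨ab.1, ha⟩, ⟨ab.2, hb⟩)}) = c := by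
      funext ab
      ext q
      constructor
      · rintro ⟨ha, hb, hq, hm⟩
        exact hm
      · intro hm
        exact ⟨ab.1.2, ab.2.2, q.2, hm⟩
    rw [← hc]
    exact hf
  obtain ⟨X, hX⟩ := rel3_ex hU he' he' he
    (fun x X => ∃ p : ↥(Tr e x), ¬ RunGood e e' le S A x X p) (by
      rintro x X Y hXY ⟨p, hp⟩
      refine ⟨p, ?_⟩
      have hc : nmD2 (Tr e x) (Tr e' x) (fun ab => {q | X ab.1 ab.2 q}) =
          nmD2 (Tr e x) (Tr e' x) (fun ab => {q | Y ab.1 ab.2 q}) := by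
        funext ab
        ext q
        exact hXY ab.1.1 ab.1.2 ab.2.1 ab.2.2 q.1 q.2
      unfold RunGood at hp ⊢
      rw [← hc]
      exact hp) h1
  obtain ⟨p, hp⟩ := (ex_iff hU he
    (fun x p => ∃ hp : p ∈ Tr e x, ¬ RunGood e e' le S A x X ⟨p, hp⟩)).1 (by
      filter_upwards [hX] with x hx
      obtain ⟨p, hp⟩ := hx
      exact ⟨p.1, p.2, p.2, hp⟩)
  obtain ⟨q, hqp, f, hf⟩ := h (fun ab => {q | X ab.1 ab.2 q}) p
  have hdat : ∀ (r : Q) (a : K), ∃ (s : Q) (b : K), (le r q ∧ Mem le S a r) →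
      le s r ∧ b < a ∧ ∀ y, b < y → y < a →
        Imp le (Mem le A (a, y)) (Iff' le (Mem le f y)
          (Mem le (fun ab : K × K => {q | X ab.1 ab.2 q}) (a, y))) s := by
    intro r a
    by_cases hra : le r q ∧ Mem le S a r
    · obtain ⟨s, hs, b, hb, hy⟩ := hf r a hra.1 hra.2
      exact ⟨s, b, fun _ => ⟨hs, hb, hy⟩⟩
    · exact ⟨r, a, fun h => absurd h hra⟩
  choose sF bF hsb using hdat
  have hfin : ∀ᶠ x in (U : Filter (Set W)), False := by
    filter_upwards [hp, hU.fine (e q), mem_rf hU he he' le S, mem_rf hU he he' le f,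
      mem_rf2 hU he he' le A, mem_rf2 hU he he' le (fun ab => {q | X ab.1 ab.2 q}),
      closed_fun2 (e'' := e) hU he he' sF, closed_fun2 (e'' := e') hU he he' bF] with
      x ⟨hpx, hng⟩ hqx hS hff hA hc hs hb
    apply hng
    refine ⟨⟨q, hqx⟩, hqp, nmD (Tr e x) (Tr e' x) f, ?_⟩
    intro r a hr hm
    have hm' := (hS a r).1 hm
    obtain ⟨h1, h2, h3⟩ := hsb r.1 a.1 ⟨hr, hm'⟩
    refine ⟨⟨sF r.1 a.1, hs r.1 r.2 a.1 a.2⟩, h1, ⟨bF r.1 a.1, hb r.1 r.2 a.1 a.2⟩, h2, ?_⟩
    intro y hby hya s' hs' hAs q' hq'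
    have h4 := h3 y.1 hby hya s'.1 hs' ((hA a y s').1 hAs) q'.1 hq'
    rw [hff y q', hc a y q']
    exact h4
  obtain ⟨x, hx⟩ := hfin.exists
  exact hx

end Pool.Agent.UlM
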