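import Pool.Agent.Lib.UlM.Rul

/-!
# Crl: cardinalities of traces

PROOF. `le_of_tr`: for almost all `x` an injection of `Tr e x` into `Tr e' x` extends to a function `f_x : T → T'`, injective on
`Tr e x`, mapping it to `Tr e' x` (if `T'` is empty then `Tr e x` is empty for almost all `x`, so `T` is empty by `fine`); by `fun_ex`
for `φ x f := Set.InjOn f (Tr e x)` there is `f` with `InjOn f (Tr e x)` for almost all `x`; `f` is injective by `fine` for two
points. `tr_le`: an injection `f : T → T'`, `closed_fun`. `tr_lt`: otherwise (ultrafilter) `≤` for almost all `x`, and `le_of_tr`.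
`tr_succ`: `≥` by `tr_lt`. `≤`: by `tr_le` (for bijections, both directions) assume `T' = (succ #T).ord.ToType`; for `a : T'` let
`g a : T' → T` be injective on `Iio a` (`#(Iio a) < succ #T`); by `closed_fun2` `g a` maps `Iio a ∩ Tr e' x` to `Tr e x` for
`a ∈ Tr e' x`; so all proper initial segments of the well-ordered type `Tr e' x` have at most `#(Tr e x)` elements, so
`#(Tr e' x) ≤ succ #(Tr e x)` (otherwise the element of `Tr e' x` of order type `(succ #(Tr e x)).ord` has an initial segment of
cardinality `succ #(Tr e x)`).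
`tr_mu`: `K = κ.ord.ToType`; by induction `#(Tr e_n x) = succ^[n] #(Tr e₀ x)` for almost all `x`, for every injection `e_n` of a type
`T_n` of cardinality `succ^[n] κ` (`tr_succ`, `tr_le` for types of the same cardinality), for all `n` at once (countably many
events: `Filter.eventually_countable_forall` needs a countable intersection property: use `complete` for `ULift ℕ`, `ℵ₀ < κ`).
`T` (of cardinality `mu κ`) contains, for each `n`, a subset `T_n` of cardinality `succ^[n] κ`, and `T = ⋃ n, T_n` for suitable
`T_n` (`T ≃ (mu κ).ord.ToType`, `T_n = ` the elements with fewer than `(succ^[n] κ).ord` predecessors; here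
`succ^[n] κ < mu κ`); `Tr e x = ⋃ n, (T_n ∩ Tr e x)`, `#(T_n ∩ Tr e x) = #(Tr (e ∘ (↑)) x)` for the subtype; `≥`: each term is a
lower bound; `≤`: `#(⋃ n, ..) ≤ ℵ₀ * ⨆ n, ..` and the supremum is infinite.
-/

set_option autoImplicit false
universe u

namespace Pool.Agent.UlM

open Cardinal Filter

variable {κ : Cardinal.{u}} {W : Type u} {U : Ultrafilter (Set W)} (hU : NormalFine κ W U)
include hU

theorem le_of_tr {T T' : Type u} {e : T → W} {e' : T' → W} (he : Function.Injective e)
    (he' : Function.Injective e') (h : ∀ᶠ x in (U : Filter (Set W)), #(Tr e x) ≤ #(Tr e' x)) :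
    #T ≤ #T' := by
  classical
  rcases isEmpty_or_nonempty T' with hT' | hT'
  · have hT : IsEmpty T := by
      refine ⟨fun t => ?_⟩
      obtain ⟨x, hx1, hx2⟩ := (h.and (hU.fine (e t))).exists
      have h1 : #(Tr e' x) = 0 := Cardinal.mk_eq_zero _
      rw [h1, nonpos_iff_eq_zero, Cardinal.mk_eq_zero_iff] at hx1
      exact hx1.false ⟨t, hx2⟩
    rw [Cardinal.mk_eq_zero T]
    exact zero_le
  · obtain ⟨f, hf⟩ := fun_ex hU he he' (fun x f => Set.InjOn f (Tr e x))
      (fun x f g hfg hf => hf.congr hfg)
      (h.mono fun x hx => by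
        obtain ⟨g⟩ := Cardinal.le_def _ _ |>.1 hx
        refine ⟨fun t => if ht : t ∈ Tr e x then (g ⟨t, ht⟩ : T') else Classical.choice hT', ?_, ?_⟩
        · intro t ht
          simp only [dif_pos ht]
          exact (g ⟨t, ht⟩).2
        · intro t ht s hs hts
          simp only [dif_pos ht, dif_pos hs] at hts
          have h2 := g.injective (Subtype.ext hts)
          exact congrArg Subtype.val h2)
    refine Cardinal.mk_le_of_injective (f := f) ?_
    intro t s hts
    obtain ⟨x, hx, h1, h2⟩ := (hf.and ((hU.fine (e t)).and (hU.fine (e s)))).exists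
    exact hx h1 h2 hts

theorem tr_le {T T' : Type u} {e : T → W} {e' : T' → W} (he : Function.Injective e)
    (he' : Function.Injective e') (h : #T ≤ #T') :
    ∀ᶠ x in (U : Filter (Set W)), #(Tr e x) ≤ #(Tr e' x) := by
  obtain ⟨f⟩ := Cardinal.le_def _ _ |>.1 h
  refine (closed_fun hU he (e' := e') f).mono fun x hx => ?_
  refine Cardinal.mk_le_of_injective (f := fun t : Tr e x => (⟨f t.1, hx t.1 t.2⟩ : Tr e' x)) ?_
  intro t s hts
  exact Subtype.ext (f.injective (congrArg Subtype.val hts))

theorem tr_lt {T T' : Type u} {e : T → W} {e' : T' → W} (he : Function.Injective e)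
    (he' : Function.Injective e') (h : #T < #T') :
    ∀ᶠ x in (U : Filter (Set W)), #(Tr e x) < #(Tr e' x) := by
  by_contra hc
  rw [← Ultrafilter.eventually_not] at hc
  exact not_le.2 h (le_of_tr hU he' he (hc.mono fun x hx => not_lt.1 hx))

omit hU in
/-- a set of elements of a well-order all of whose proper initial segments have at most `c`
elements has at most `succ c` elements -/
private theorem crl_seg {K : Type u} [LinearOrder K] [WellFoundedLT K] (A : Set K)
    (c : Cardinal.{u}) (h : ∀ a ∈ A, #{b : K // b ∈ A ∧ b < a} ≤ c) : #A ≤ Order.succ c := by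
  by_contra hc
  rw [not_le] at hc
  have h1 : (Order.succ c).ord < Ordinal.type (fun a b : A => a < b) :=
    (Cardinal.ord_lt_ord.2 hc).trans_le (Cardinal.ord_le_type _)
  obtain ⟨a, ha⟩ := Ordinal.typein_surj (fun a b : A => a < b) h1
  have h2 := Ordinal.card_typein (r := fun a b : A => a < b) a
  rw [ha, Cardinal.card_ord] at h2
  have h3 : #{y : A // y < a} ≤ #{b : K // b ∈ A ∧ b < a.1} :=
    Cardinal.mk_le_of_injective (f := fun y : {y : A // y < a} => ⟨y.1.1, y.1.2, y.2⟩)
      fun y z hyz => Subtype.ext (Subtype.ext (congrArg (fun w => w.1) hyz))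
  have h4 := h3.trans (h a.1 a.2)
  rw [← h2] at h4
  exact absurd h4 (not_le.2 (Order.lt_succ c))

theorem tr_succ {T T' : Type u} {e : T → W} {e' : T' → W} (he : Function.Injective e)
    (he' : Function.Injective e') (h0 : ℵ₀ ≤ #T) (h : #T' = Order.succ #T) :
    ∀ᶠ x in (U : Filter (Set W)), #(Tr e' x) = Order.succ #(Tr e x) := by
  classical
  have hT : Nonempty T := by
    rw [← Cardinal.mk_ne_zero_iff]
    intro h1
    rw [h1] at h0
    exact absurd h0 (not_le.2 Cardinal.aleph0_pos)
  have hcard : #((Order.succ #T).ord.ToType) = #T' := by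
    rw [Cardinal.mk_toType, Cardinal.card_ord, h]
  obtain ⟨E⟩ := Cardinal.eq.1 hcard
  have hinj : ∀ a : (Order.succ #T).ord.ToType, ∃ g : (Order.succ #T).ord.ToType → T,
      Set.InjOn g (Set.Iio a) := by
    intro a
    have h1 : #(Set.Iio a) ≤ #T := by
      have h2 : #(Set.Iio a) < Order.succ #T := Cardinal.mk_Iio_toType_ord_lt a
      exact Order.lt_succ_iff.1 h2
    obtain ⟨g⟩ := Cardinal.le_def _ _ |>.1 h1
    refine ⟨fun t => if ht : t ∈ Set.Iio a then g ⟨t, ht⟩ else Classical.choice hT, ?_⟩
    intro t ht s hs hts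
    simp only [dif_pos ht, dif_pos hs] at hts
    exact congrArg Subtype.val (g.injective hts)
  choose g hg using hinj
  have heK : Function.Injective (fun a : (Order.succ #T).ord.ToType => e' (E a)) :=
    he'.comp E.injective
  have h1 := tr_lt hU he he' (by rw [h]; exact Order.lt_succ _)
  have h2 := closed_fun2 hU heK heK (e'' := e) g
  filter_upwards [h1, h2] with x hx1 hx2
  apply le_antisymm _ (Order.succ_le_of_lt hx1)
  have h3 : #(Tr e' x) = #(Tr (fun a : (Order.succ #T).ord.ToType => e' (E a)) x) := by
    refine Cardinal.mk_congr ⟨fun t => ⟨E.symm t.1, by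
      change e' (E (E.symm t.1)) ∈ x
      rw [Equiv.apply_symm_apply]; exact t.2⟩, fun a => ⟨E a.1, a.2⟩, ?_, ?_⟩
    · intro t
      exact Subtype.ext (E.apply_symm_apply t.1)
    · intro a
      exact Subtype.ext (E.symm_apply_apply a.1)
  rw [h3]
  refine crl_seg _ _ fun a ha => ?_
  refine Cardinal.mk_le_of_injective (f := fun b : {b // b ∈
    Tr (fun a : (Order.succ #T).ord.ToType => e' (E a)) x ∧ b < a} =>
      (⟨g a b.1, hx2 a ha b.1 b.2.1⟩ : Tr e x)) ?_
  intro b c hbc
  exact Subtype.ext (hg a b.2.2 c.2.2 (congrArg Subtype.val hbc))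

end Pool.Agent.UlM
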