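import Pool.Agent.Lib.UlM.Blk
import Pool.Agent.Lib.PolF.Bas

/-!
# Tl: distributive second steps

`IsTl` is the part of `IsBlk` without chain condition and size. The order of `P × Z` is a preorder; a block stays
a block under isomorphisms.
-/

set_option autoImplicit false
universe u

namespace Pool.Agent.UlM

open Cardinal Filter Pool.Agent.PolF Pool.Agent.UlB

/-- `Z` is closed under limits of `X`-chains of length at most `ν`, and mixing -/
structure IsTl {P Z : Type u} (le : P → P → Prop) (R : P → Z → Z → Prop) (X : Z → Z → Prop)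
    (ν : Cardinal.{u}) : Prop where
  down : ∀ t t' a b, le t' t → R t a b → R t' a b
  loc : ∀ t a b, (∀ t', le t' t → ∃ t'', le t'' t' ∧ R t'' a b) → R t a b
  refl : ∀ t a, R t a a
  trans : ∀ t a b c, R t a b → R t b c → R t a c
  xrefl : ∀ a, X a a
  xtrans : ∀ a b c, X a b → X b c → X a c
  xr : ∀ t a b, X a b → R t a b
  closed : ∀ C : Set Z, C.Nonempty → #C ≤ ν → (∀ a ∈ C, ∀ b ∈ C, X a b ∨ X b a) →
    ∃ b, ∀ a ∈ C, X b a
  mix : ∀ t a b, R t a b → ∃ a', X a' b ∧ R t a' a ∧ R t a a'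

variable {P Z : Type u} {le : P → P → Prop} {R : P → Z → Z → Prop} {X : Z → Z → Prop}
  {ν : Cardinal.{u}}

theorem IsBlk.tl (h : IsBlk le R X ν) : IsTl le R X ν :=
  ⟨h.down, h.loc, h.refl, h.trans, h.xrefl, h.xtrans, h.xr, h.closed, h.mix⟩

theorem le2_refl (hr : ∀ p, le p p) (h : IsTl le R X ν) (z : P × Z) : le2 le R z z :=
  ⟨hr _, h.refl _ _⟩

theorem le2_trans (ht : ∀ p q r, le p q → le q r → le p r) (h : IsTl le R X ν) (z w v : P × Z)
    (h1 : le2 le R z w) (h2 : le2 le R w v) : le2 le R z v :=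
  ⟨ht _ _ _ h1.1 h2.1, h.trans _ _ _ _ h1.2 (h.down _ _ _ _ h1.1 h2.2)⟩

theorem IsBlk.equiv {P' Z' : Type u} {le' : P' → P' → Prop} {R' : P' → Z' → Z' → Prop}
    {X' : Z' → Z' → Prop} (f : P ≃ P') (g : Z ≃ Z') (hle : ∀ a b, le' (f a) (f b) ↔ le a b)
    (hR : ∀ t a b, R' (f t) (g a) (g b) ↔ R t a b) (hX : ∀ a b, X' (g a) (g b) ↔ X a b)
    (h : IsBlk le R X ν) : IsBlk le' R' X' ν where
  down := by
    intro t t' a b h1 h2
    obtain ⟨t, rfl⟩ := f.surjective t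
    obtain ⟨t', rfl⟩ := f.surjective t'
    obtain ⟨a, rfl⟩ := g.surjective a
    obtain ⟨b, rfl⟩ := g.surjective b
    rw [hR] at h2 ⊢
    exact h.down _ _ _ _ ((hle _ _).1 h1) h2
  loc := by
    intro t a b h1
    obtain ⟨t, rfl⟩ := f.surjective t
    obtain ⟨a, rfl⟩ := g.surjective a
    obtain ⟨b, rfl⟩ := g.surjective b
    rw [hR]
    refine h.loc _ _ _ fun t' ht' => ?_
    obtain ⟨t'', h2, h3⟩ := h1 (f t') ((hle _ _).2 ht')
    obtain ⟨t'', rfl⟩ := f.surjective t''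
    exact ⟨t'', (hle _ _).1 h2, (hR _ _ _).1 h3⟩
  refl := by
    intro t a
    obtain ⟨t, rfl⟩ := f.surjective t
    obtain ⟨a, rfl⟩ := g.surjective a
    exact (hR _ _ _).2 (h.refl _ _)
  trans := by
    intro t a b c h1 h2
    obtain ⟨t, rfl⟩ := f.surjective t
    obtain ⟨a, rfl⟩ := g.surjective a
    obtain ⟨b, rfl⟩ := g.surjective b
    obtain ⟨c, rfl⟩ := g.surjective c
    rw [hR] at h1 h2 ⊢
    exact h.trans _ _ _ _ h1 h2
  xrefl := by
    intro a
    obtain ⟨a, rfl⟩ := g.surjective a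
    exact (hX _ _).2 (h.xrefl _)
  xtrans := by
    intro a b c h1 h2
    obtain ⟨a, rfl⟩ := g.surjective a
    obtain ⟨b, rfl⟩ := g.surjective b
    obtain ⟨c, rfl⟩ := g.surjective c
    rw [hX] at h1 h2 ⊢
    exact h.xtrans _ _ _ h1 h2
  xr := by
    intro t a b h1
    obtain ⟨t, rfl⟩ := f.surjective t
    obtain ⟨a, rfl⟩ := g.surjective a
    obtain ⟨b, rfl⟩ := g.surjective b
    rw [hX] at h1
    exact (hR _ _ _).2 (h.xr _ _ _ h1)
  closed := by
    intro C h1 h2 h3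
    obtain ⟨b, hb⟩ := h.closed (g ⁻¹' C) (by
      obtain ⟨c, hc⟩ := h1
      obtain ⟨c, rfl⟩ := g.surjective c
      exact ⟨c, hc⟩) ((Cardinal.mk_preimage_of_injective g C g.injective).trans h2)
      (fun a ha b hb => by
        have := h3 _ ha _ hb
        rwa [hX, hX] at this)
    refine ⟨g b, fun a ha => ?_⟩
    obtain ⟨a, rfl⟩ := g.surjective a
    exact (hX _ _).2 (hb a ha)
  mix := by
    intro t a b h1
    obtain ⟨t, rfl⟩ := f.surjective t
    obtain ⟨a, rfl⟩ := g.surjective a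
    obtain ⟨b, rfl⟩ := g.surjective b
    rw [hR] at h1
    obtain ⟨c, h2, h3, h4⟩ := h.mix _ _ _ h1
    exact ⟨g c, (hX _ _).2 h2, (hR _ _ _).2 h3, (hR _ _ _).2 h4⟩
  cc := by
    intro B h1
    have h2 := h.cc ((Equiv.prodCongr f g) ⁻¹' B) (by
      intro p hp q hq hpq hc
      obtain ⟨r, h3, h4⟩ := hc
      refine h1 _ hp _ hq (fun e => hpq ((Equiv.prodCongr f g).injective e))
        ⟨(f r.1, g r.2), ⟨(hle _ _).2 h3.1, (hR _ _ _).2 h3.2⟩, ⟨(hle _ _).2 h4.1, (hR _ _ _).2 h4.2⟩⟩)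
    rwa [Cardinal.mk_preimage_equiv] at h2
  size := by
    rw [← Cardinal.mk_congr g]
    exact h.size

end Pool.Agent.UlM
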