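import Pool.Agent.Lib.UlM.Kap

/-!
# Inx: `x ∩ κ` is an inaccessible cardinal

PROOF. `tr_ina`: let `i = i_x` (unique). For almost all `x` the following hold.
(a) `∀ j < i, #(Iio j) < #(Iio i)`: for `j : K` there is `f j : K` with `#(Iio j) < #(Iio (f j))` (`κ` is a limit cardinal; e.g.
the element of `K` of order type `(succ #(Iio j)).ord`: every cardinal `c < κ` is `#(Iio k)` for some `k : K`, `k = Ordinal.enum ..`);
`closed_fun`: `f j < i`, so `#(Iio j) < #(Iio (f j)) ≤ #(Iio i)`.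
(b) `ℵ₀ < #(Iio i)`: take `k : K` with `#(Iio k) = succ ℵ₀` (or `ℵ₁ < κ`); for almost all `x`, `k ∈ Tr e x`.
(c) strong limit: for `c < #(Iio i)` there is `j < i` with `#(Iio j) = c` (initial segment of `Iio i` of type `c.ord`), and
`g j : K` with `#(Iio (g j)) = 2 ^ #(Iio j) < κ`; `closed_fun`: `g j < i`, so `2 ^ c ≤ #(Iio (g j)) < #(Iio i)` by (a).
(d) regular: if not for almost all `x`, then for almost all `x` (ultrafilter) there is a cofinal function from a cardinal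
`c < #(Iio i)` to `Iio i`, so there are `n < i` (`#(Iio n) = c`) and `f_x : K → K` mapping `Iio n` to a subset of `Iio i`
unbounded in `Iio i` (`Iio i` is order isomorphic to `(#(Iio i)).ord.ToType`, by (a); `Ordinal.cof`/`Order.cof` of it is the least
cardinality of an unbounded subset). By `ex_iff` `n` is constant, by `fun_ex` (with `T = T' = K`, values outside `Iio n` irrelevant:
replace `f_x` by `fun t => if t < n then f_x t else n`) there is `f : K → K` such that for almost all `x`, `f '' Iio n` is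
unbounded in `Iio i` and contained in it. As `κ` is regular, `f '' Iio n` has an upper bound `b : K` (`#(Iio n) < κ`); for almost all
`x`, `b ∈ Tr e x`, `b < i`, a contradiction.
-/

set_option autoImplicit false
universe u

namespace Pool.Agent.UlM

open Cardinal Filter

private theorem inx_card {κ c : Cardinal.{u}} (h : c < κ) :
    ∃ k : κ.ord.ToType, #(Set.Iio k) = c := by
  have hlt : c.ord < Ordinal.type (α := κ.ord.ToType) (· < ·) := by
    rw [Ordinal.type_toType]; exact Cardinal.ord_lt_ord.2 h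
  refine ⟨Ordinal.enum (α := κ.ord.ToType) (· < ·) ⟨c.ord, hlt⟩, ?_⟩
  have h1 : Ordinal.card (Ordinal.typein (α := κ.ord.ToType) (· < ·)
      (Ordinal.enum (α := κ.ord.ToType) (· < ·) ⟨c.ord, hlt⟩)) = c := by
    rw [Ordinal.typein_enum, Cardinal.card_ord]
  exact h1

private theorem inx_type {α : Type u} [LinearOrder α] [WellFoundedLT α]
    (h : ∀ a : α, #(Set.Iio a) < #α) : (#α).ord = Ordinal.type (α := α) (· < ·) := by
  refine le_antisymm (Cardinal.ord_le_type (α := α) (· < ·)) ?_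
  by_contra hlt
  push Not at hlt
  have h1 : Ordinal.card (Ordinal.typein (α := α) (· < ·)
      (Ordinal.enum (α := α) (· < ·) ⟨(#α).ord, hlt⟩)) = #α := by
    rw [Ordinal.typein_enum, Cardinal.card_ord]
  have h2 : #(Set.Iio (Ordinal.enum (α := α) (· < ·) ⟨(#α).ord, hlt⟩)) = #α := h1
  exact absurd (h (Ordinal.enum (α := α) (· < ·) ⟨(#α).ord, hlt⟩)) (by rw [h2]; exact lt_irrefl _)

private theorem inx_cof {K : Type u} [LinearOrder K] [WellFoundedLT K] {i : K}
    (h : ∀ j < i, #(Set.Iio j) < #(Set.Iio i)) :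
    (#(Set.Iio i)).ord.cof = Order.cof (Set.Iio i) := by
  have h1 : ∀ a : Set.Iio i, #(Set.Iio a) < #(Set.Iio i) := by
    intro a
    refine lt_of_le_of_lt ?_ (h a.1 a.2)
    refine Cardinal.mk_le_of_injective (f := fun b : Set.Iio a => (⟨b.1.1, b.2⟩ : Set.Iio a.1)) ?_
    intro b c hbc
    have h3 : b.1.1 = c.1.1 := congrArg (fun z : Set.Iio a.1 => z.1) hbc
    exact Subtype.ext (Subtype.ext h3)
  rw [inx_type h1, Ordinal.cof_type]

private theorem inx_bdd {κ : Cardinal.{u}} (hκ : κ.IsInaccessible) (n : κ.ord.ToType)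
    (f : κ.ord.ToType → κ.ord.ToType) : ∃ b : κ.ord.ToType, ∀ t < n, f t < b := by
  by_contra hall
  push Not at hall
  have hc : IsCofinal (f '' Set.Iio n) := by
    intro b
    obtain ⟨t, ht, hb⟩ := hall b
    exact ⟨f t, ⟨t, ht, rfl⟩, hb⟩
  have h1 : Order.cof κ.ord.ToType ≤ #(f '' Set.Iio n) := Order.cof_le hc
  rw [Ordinal.cof_toType] at h1
  have h2 : #(f '' Set.Iio n) ≤ #(Set.Iio n) := Cardinal.mk_image_le
  have h3 : #(Set.Iio n) < κ := Cardinal.mk_Iio_toType_ord_lt n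
  exact absurd (hκ.le_cof_ord.trans (h1.trans h2)) (not_le.2 h3)

variable {κ : Cardinal.{u}} {W : Type u} {U : Ultrafilter (Set W)} (hU : NormalFine κ W U)
include hU

private theorem inx_a (hκ : κ.IsInaccessible) {e : κ.ord.ToType → W} (he : Function.Injective e) :
    ∀ᶠ x in (U : Filter (Set W)), ∀ i : κ.ord.ToType, Tr e x = Set.Iio i →
      ∀ j < i, #(Set.Iio j) < #(Set.Iio i) := by
  have hf : ∀ j : κ.ord.ToType, ∃ k : κ.ord.ToType, #(Set.Iio k) = Order.succ #(Set.Iio j) :=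
    fun j => inx_card (hκ.isSuccLimit.succ_lt (Cardinal.mk_Iio_toType_ord_lt j))
  choose f hf using hf
  filter_upwards [closed_fun hU (e' := e) he f] with x hx i hi j hj
  have hj' : j ∈ Tr e x := by rw [hi]; exact hj
  have h1 : f j ∈ Tr e x := hx j hj'
  rw [hi] at h1
  calc #(Set.Iio j) < Order.succ #(Set.Iio j) := Order.lt_succ _
    _ = #(Set.Iio (f j)) := (hf j).symm
    _ ≤ #(Set.Iio i) := Cardinal.mk_le_mk_of_subset (Set.Iio_subset_Iio (le_of_lt h1))

private theorem inx_b (hκ : κ.IsInaccessible) {e : κ.ord.ToType → W} :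
    ∀ᶠ x in (U : Filter (Set W)), ∀ i : κ.ord.ToType, Tr e x = Set.Iio i →
      ℵ₀ < #(Set.Iio i) := by
  obtain ⟨k, hk⟩ := inx_card (hκ.isSuccLimit.succ_lt hκ.aleph0_lt)
  filter_upwards [hU.fine (e k)] with x hx i hi
  have h1 : k ∈ Tr e x := hx
  rw [hi] at h1
  calc ℵ₀ < Order.succ ℵ₀ := Order.lt_succ _
    _ = #(Set.Iio k) := hk.symm
    _ ≤ #(Set.Iio i) := Cardinal.mk_le_mk_of_subset (Set.Iio_subset_Iio (le_of_lt h1))

private theorem inx_c (hκ : κ.IsInaccessible) {e : κ.ord.ToType → W} (he : Function.Injective e) :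
    ∀ᶠ x in (U : Filter (Set W)), ∀ i : κ.ord.ToType, Tr e x = Set.Iio i →
      (#(Set.Iio i)).IsStrongPrelimit := by
  have hg : ∀ j : κ.ord.ToType, ∃ k : κ.ord.ToType, #(Set.Iio k) = 2 ^ #(Set.Iio j) :=
    fun j => inx_card (hκ.isStrongPrelimit (Cardinal.mk_Iio_toType_ord_lt j))
  choose g hg using hg
  filter_upwards [closed_fun hU (e' := e) he g, inx_a hU hκ he] with x hx ha i hi c hc
  obtain ⟨j, hj⟩ := inx_card (hc.trans (Cardinal.mk_Iio_toType_ord_lt i))
  have hji : j < i := by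
    by_contra hle
    have h1 : #(Set.Iio i) ≤ #(Set.Iio j) :=
      Cardinal.mk_le_mk_of_subset (Set.Iio_subset_Iio (not_lt.1 hle))
    rw [hj] at h1
    exact absurd hc (not_lt.2 h1)
  have hj' : j ∈ Tr e x := by rw [hi]; exact hji
  have h1 : g j ∈ Tr e x := hx j hj'
  rw [hi] at h1
  have h2 := ha i hi (g j) h1
  rw [hg j, hj] at h2
  exact h2

private theorem inx_d (hκ : κ.IsInaccessible) {e : κ.ord.ToType → W} (he : Function.Injective e) :
    ∀ᶠ x in (U : Filter (Set W)), ∀ i : κ.ord.ToType, Tr e x = Set.Iio i →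
      #(Set.Iio i) ≤ (#(Set.Iio i)).ord.cof := by
  by_contra hno
  have hno' : ∀ᶠ x in (U : Filter (Set W)), ¬ ∀ i : κ.ord.ToType, Tr e x = Set.Iio i →
      #(Set.Iio i) ≤ (#(Set.Iio i)).ord.cof := Ultrafilter.eventually_not.2 hno
  have key : ∀ᶠ x in (U : Filter (Set W)), ∃ n ∈ Tr e x, ∃ f : κ.ord.ToType → κ.ord.ToType,
      (∀ t ∈ Tr e x, f t ∈ Tr e x) ∧ ∀ s ∈ Tr e x, ∃ t ∈ Tr e x, t < n ∧ s ≤ f t := by
    filter_upwards [hno', inx_a hU hκ he] with x hx ha
    push Not at hx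
    obtain ⟨i, hi, hlt⟩ := hx
    rw [inx_cof (ha i hi)] at hlt
    obtain ⟨S, hS, hSc⟩ := Order.exists_cof_eq (α := Set.Iio i)
    rw [← hSc] at hlt
    obtain ⟨n, hn⟩ := inx_card (hlt.trans (Cardinal.mk_Iio_toType_ord_lt i))
    have hni : n < i := by
      by_contra hle
      have h1 : #(Set.Iio i) ≤ #(Set.Iio n) :=
        Cardinal.mk_le_mk_of_subset (Set.Iio_subset_Iio (not_lt.1 hle))
      rw [hn] at h1
      exact absurd hlt (not_lt.2 h1)
    obtain ⟨E⟩ := Cardinal.eq.1 hn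
    classical
    refine ⟨n, by rw [hi]; exact hni,
      fun t => if h : t < n then ((E ⟨t, h⟩).1 : Set.Iio i).1 else n, ?_, ?_⟩
    · intro t _
      rw [hi]
      by_cases h : t < n
      · simp only [h, dite_true]
        exact ((E ⟨t, h⟩).1).2
      · simp only [h, dite_false]
        exact hni
    · intro s hs
      rw [hi] at hs ⊢
      obtain ⟨y, hy, hsy⟩ := hS ⟨s, hs⟩
      refine ⟨(E.symm ⟨y, hy⟩).1, lt_trans (E.symm ⟨y, hy⟩).2 hni, (E.symm ⟨y, hy⟩).2, ?_⟩
      have h1 : (E.symm ⟨y, hy⟩).1 < n := (E.symm ⟨y, hy⟩).2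
      simp only [h1, dite_true]
      have h2 : E ⟨(E.symm ⟨y, hy⟩).1, h1⟩ = ⟨y, hy⟩ := E.apply_symm_apply ⟨y, hy⟩
      rw [h2]
      exact hsy
  obtain ⟨n, hn⟩ := (ex_iff hU he (fun x n => ∃ f : κ.ord.ToType → κ.ord.ToType,
      (∀ t ∈ Tr e x, f t ∈ Tr e x) ∧ ∀ s ∈ Tr e x, ∃ t ∈ Tr e x, t < n ∧ s ≤ f t)).1 key
  obtain ⟨f, hf⟩ := fun_ex hU he he (fun x f => ∀ s ∈ Tr e x, ∃ t ∈ Tr e x, t < n ∧ s ≤ f t)
    (by
      intro x f g hfg h s hs
      obtain ⟨t, ht, htn, hst⟩ := h s hs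
      exact ⟨t, ht, htn, (hfg t ht) ▸ hst⟩) hn
  obtain ⟨b, hb⟩ := inx_bdd hκ n f
  have hfalse : ∀ᶠ x in (U : Filter (Set W)), False := by
    filter_upwards [hf, hU.fine (e b)] with x hx hbx
    obtain ⟨t, _, htn, hbt⟩ := hx b hbx
    exact absurd (hb t htn) (not_lt.2 hbt)
  exact (Filter.eventually_false_iff_eq_bot.1 hfalse) |> U.neBot.ne

theorem tr_ina (hκ : κ.IsInaccessible) {e : κ.ord.ToType → W} (he : Function.Injective e) :
    ∀ᶠ x in (U : Filter (Set W)), ∃ i : κ.ord.ToType, Tr e x = Set.Iio i ∧ Ina i := by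
  filter_upwards [tr_kap hU he, inx_a hU hκ he, inx_b hU hκ (e := e), inx_c hU hκ he,
    inx_d hU hκ he] with x hx ha hb hc hd
  obtain ⟨i, hi⟩ := hx
  exact ⟨i, hi, ⟨hb i hi, hd i hi, hc i hi⟩, ha i hi⟩

end Pool.Agent.UlM
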