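import Pool.Agent.Lib.UlM.Blk
import Pool.Agent.Lib.UlM.Rul
import Pool.Agent.Lib.UlM.Crl

/-!
# Rba: reflection of the chain condition

PROOF. If it fails for almost all `x`, there is a set `B_x` of pairwise incompatible elements with
`succ #(Tr eT x) < #B_x`, so `#(Tr e₃ x) = succ (succ #(Tr eT x)) ≤ #B_x` (`tr_succ` twice, `Order.succ_le_of_lt`) for a type
`T₃` with `#T₃ = succ (succ #T)` embedded in `W` by `e₃` (exists by `hW`: `Cardinal.le_def`; also an intermediate type
`T₂` with `#T₂ = succ #T`). Let `f_x : T₃ → P × Z` map `Tr e₃ x` injectively to (the image of) `B_x`. Apply `fun_ex` twice, for the two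
coordinates (or once for `P × Z`, embedded by an injection `e₂`, with `tr_prod`): there is `f : T₃ → P × Z` such that for
almost all `x` the values `f s`, `s ∈ Tr e₃ x`, are in the traces, distinct and pairwise incompatible on the traces. Then
`range f` is an antichain of `P × Z` (if `r` is below `f s` and `f t`, take `x` containing `s`, `t`, `r.1`, `r.2`) with
`succ (succ #T)` elements (`f` is injective), which contradicts `h`.
-/

set_option autoImplicit false
universe u

namespace Pool.Agent.UlM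

open Cardinal Filter Pool.Agent.PolF Pool.Agent.UlB

variable {κ : Cardinal.{u}} {W : Type u} {U : Ultrafilter (Set W)} (hU : NormalFine κ W U)
  {P Z T : Type u} {e : P → W} {e' : Z → W} {eT : T → W} (he : Function.Injective e)
  (he' : Function.Injective e') (heT : Function.Injective eT)
include hU he he' heT

theorem blk_rf_cc {le : P → P → Prop} {R : P → Z → Z → Prop} (h0 : ℵ₀ ≤ #T)
    (hW : Order.succ (Order.succ #T) ≤ #W) (hPZ : #(P × Z) ≤ #W)
    (h : ∀ B : Set (P × Z), (∀ p ∈ B, ∀ q ∈ B, p ≠ q → ¬ ∃ r, le2 le R r p ∧ le2 le R r q) →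
      #B ≤ Order.succ #T) :
    ∀ᶠ x in (U : Filter (Set W)), ∀ B : Set (↥(Tr e x) × ↥(Tr e' x)),
      (∀ p ∈ B, ∀ q ∈ B, p ≠ q → ¬ ∃ r, le2 (leD le (Tr e x))
        (fun (t : ↥(Tr e x)) (a b : ↥(Tr e' x)) => R t.1 a.1 b.1) r p ∧
        le2 (leD le (Tr e x)) (fun (t : ↥(Tr e x)) (a b : ↥(Tr e' x)) => R t.1 a.1 b.1) r q) →
      #B ≤ Order.succ #(Tr eT x) := by
  classical
  by_contra hcon
  rw [← Ultrafilter.eventually_not] at hcon
  have hT3 : #((Order.succ (Order.succ #T)).out) = Order.succ (Order.succ #T) := Cardinal.mk_out _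
  have hT2 : #((Order.succ #T).out) = Order.succ #T := Cardinal.mk_out _
  obtain ⟨g3⟩ := (Cardinal.le_def _ _).1 (hT3.le.trans hW)
  obtain ⟨g2⟩ := (Cardinal.le_def _ _).1 (hT2.le.trans ((Order.le_succ _).trans hW))
  obtain ⟨gP⟩ := (Cardinal.le_def _ _).1 hPZ
  have h1 := tr_succ hU heT g2.injective h0 hT2
  have h2 := tr_succ hU g2.injective g3.injective
    (by rw [hT2]; exact h0.trans (Order.le_succ _)) (by rw [hT3, hT2])
  have h3 := tr_prod hU he he' gP.injective
  obtain ⟨f, hf⟩ := fun_ex hU g3.injective gP.injective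
    (fun x (f : (Order.succ (Order.succ #T)).out → P × Z) =>
      ∀ s ∈ Tr g3 x, ∀ t ∈ Tr g3 x, s ≠ t → f s ≠ f t ∧
        ¬ ∃ r : P × Z, r.1 ∈ Tr e x ∧ r.2 ∈ Tr e' x ∧ le2 le R r (f s) ∧ le2 le R r (f t))
    (by
      intro x f g hfg hf s hs t ht hst
      rw [← hfg s hs, ← hfg t ht]
      exact hf s hs t ht hst)
    (by
      filter_upwards [hcon, h1, h2, h3] with x hx hx1 hx2 hx3
      push Not at hx
      obtain ⟨B, hB, hBc⟩ := hx
      have h4 : #(Tr g3 x) ≤ #B := by
        rw [hx2, hx1]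
        exact Order.succ_le_of_lt hBc
      obtain ⟨i⟩ := (Cardinal.le_def _ _).1 h4
      have hne : Nonempty (P × Z) := by
        have h5 : #B ≠ 0 := (lt_of_le_of_lt (zero_le) hBc).ne'
        rw [Cardinal.mk_ne_zero_iff] at h5
        obtain ⟨b⟩ := h5
        exact ⟨(b.1.1.1, b.1.2.1)⟩
      refine ⟨fun t => if ht : t ∈ Tr g3 x then ((i ⟨t, ht⟩).1.1.1, (i ⟨t, ht⟩).1.2.1)
        else Classical.choice hne, ?_, ?_⟩
      · intro t ht
        simp only [dif_pos ht]
        exact (hx3 _ _).2 ⟨(i ⟨t, ht⟩).1.1.2, (i ⟨t, ht⟩).1.2.2⟩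
      · intro s hs t ht hst
        simp only [dif_pos ht, dif_pos hs]
        have hne' : (i ⟨s, hs⟩).1 ≠ (i ⟨t, ht⟩).1 := by
          intro h6
          have h7 := i.injective (Subtype.ext h6)
          exact hst (congrArg Subtype.val h7)
        refine ⟨?_, ?_⟩
        · intro h6
          rw [Prod.mk.injEq] at h6
          exact hne' (Prod.ext (Subtype.ext h6.1) (Subtype.ext h6.2))
        · rintro ⟨r, hr1, hr2, hr3, hr4⟩
          exact hB _ (i ⟨s, hs⟩).2 _ (i ⟨t, ht⟩).2 hne'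
            (⟨r.1, hr1⟩, ⟨r.2, hr2⟩) ⟨hr3.1, hr3.2⟩ ⟨hr4.1, hr4.2⟩)
  have hinj : Function.Injective f := by
    intro s t hst
    by_contra hne
    obtain ⟨x, hx, hs, ht⟩ :=
      (hf.and ((hU.fine (g3 s)).and (hU.fine (g3 t)))).exists
    exact (hx s hs t ht hne).1 hst
  have hanti : #(Set.range f) ≤ Order.succ #T := by
    refine h _ ?_
    rintro _ ⟨s, rfl⟩ _ ⟨t, rfl⟩ hne ⟨r, hr1, hr2⟩
    obtain ⟨x, ⟨hx, hs, ht⟩, h6, h7⟩ := ((hf.and ((hU.fine (g3 s)).and (hU.fine (g3 t)))).and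
      ((hU.fine (e r.1)).and (hU.fine (e' r.2)))).exists
    exact (hx s hs t ht (fun h8 => hne (congrArg f h8))).2 ⟨r, h6, h7, hr1, hr2⟩
  rw [Cardinal.mk_range_eq f hinj, hT3] at hanti
  exact absurd hanti (not_le.2 (Order.lt_succ _))

end Pool.Agent.UlM
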