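import Pool.Agent.Lib.UlM.Rbc
import Pool.Agent.Lib.UlM.Rba

/-!
# Rbl: reflection of blocks

PROOF. `IsBlk` on the traces, field by field, each for almost all `x`. `down`, `refl`, `trans`, `xrefl`, `xtrans`, `xr`:
immediate. `loc`: choose `f : P → Z → Z → P` such that, if not `R t a b`, then `le (f t a b) t` and `¬ R t'' a b` for all `t''`
below `f t a b`; `closed_fun3`. `mix`: choose `a' = g t a b`, `closed_fun3`. `closed`: `blk_rf_closed`. `cc`: `blk_rf_cc`.
`size`: `tr_le` and `tr_succ` twice (choose types of cardinality `succ #T`, `succ (succ #T)`, embedded in `W` by `hW`).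
-/

set_option autoImplicit false
universe u

namespace Pool.Agent.UlM

open Cardinal Filter Pool.Agent.PolF Pool.Agent.UlB

variable {κ : Cardinal.{u}} {W : Type u} {U : Ultrafilter (Set W)} (hU : NormalFine κ W U)
  {P Z T : Type u} {e : P → W} {e' : Z → W} {eT : T → W} (he : Function.Injective e)
  (he' : Function.Injective e') (heT : Function.Injective eT)
include hU he he' heT

theorem blk_rf {le : P → P → Prop} {R : P → Z → Z → Prop} {X : Z → Z → Prop} (h0 : ℵ₀ ≤ #T)
    (hW : Order.succ (Order.succ #T) ≤ #W) (hPZ : #(P × Z) ≤ #W) (h : IsBlk le R X #T) :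
    ∀ᶠ x in (U : Filter (Set W)), IsBlk (leD le (Tr e x))
      (fun (t : ↥(Tr e x)) (a b : ↥(Tr e' x)) => R t.1 a.1 b.1) (leD X (Tr e' x))
      #(Tr eT x) := by
  classical
  -- witnesses for `loc`
  have hloc : ∃ f : P → Z → Z → P, ∀ t a b, ¬ R t a b →
      le (f t a b) t ∧ ∀ t'', le t'' (f t a b) → ¬ R t'' a b := by
    have h1 : ∀ t a b, ∃ t', ¬ R t a b → le t' t ∧ ∀ t'', le t'' t' → ¬ R t'' a b := by
      intro t a b
      by_cases hR : R t a b
      · exact ⟨t, fun hn => absurd hR hn⟩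
      · by_contra hc
        push Not at hc
        refine hR (h.loc t a b fun t' ht' => ?_)
        obtain ⟨-, h2⟩ := hc t'
        exact h2 ht'
    choose f hf using h1
    exact ⟨f, hf⟩
  obtain ⟨f, hf⟩ := hloc
  -- witnesses for `mix`
  have hmix : ∃ g : P → Z → Z → Z, ∀ t a b, R t a b → X (g t a b) b ∧ R t (g t a b) a ∧
      R t a (g t a b) := by
    have h1 : ∀ t a b, ∃ c, R t a b → X c b ∧ R t c a ∧ R t a c := by
      intro t a b
      by_cases hR : R t a b
      · obtain ⟨c, hc⟩ := h.mix t a b hR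
        exact ⟨c, fun _ => hc⟩
      · exact ⟨a, fun hn => absurd hn hR⟩
    choose g hg using h1
    exact ⟨g, hg⟩
  obtain ⟨g, hg⟩ := hmix
  -- types of cardinality `succ #T`, `succ (succ #T)`
  have c1 : #((Order.succ #T).out) = Order.succ #T := Cardinal.mk_out _
  have c2 : #((Order.succ (Order.succ #T)).out) = Order.succ (Order.succ #T) := Cardinal.mk_out _
  obtain ⟨e2⟩ := Cardinal.le_def _ _ |>.1 (c2.le.trans hW)
  obtain ⟨e1⟩ := Cardinal.le_def _ _ |>.1 (c1.le.trans ((Order.le_succ _).trans hW))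
  have s1 := tr_succ hU heT e1.injective h0 c1
  have s2 := tr_succ hU e1.injective e2.injective (by rw [c1]; exact h0.trans (Order.le_succ _))
    (by rw [c1, c2])
  have s3 := tr_le hU he' e2.injective (by rw [c2]; exact h.size)
  filter_upwards [closed_fun3 hU (e₃ := e) he he' he' f, closed_fun3 hU (e₃ := e') he he' he' g,
    blk_rf_closed hU he' heT h.closed, blk_rf_cc hU he he' heT h0 hW hPZ h.cc, s1, s2, s3]
    with x x1 x2 x3 x4 x5 x6 x7
  refine
    { down := fun t t' a b h1 h2 => h.down _ _ _ _ h1 h2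
      loc := ?_
      refl := fun t a => h.refl _ _
      trans := fun t a b c h1 h2 => h.trans _ _ _ _ h1 h2
      xrefl := fun a => h.xrefl _
      xtrans := fun a b c h1 h2 => h.xtrans _ _ _ h1 h2
      xr := fun t a b h1 => h.xr _ _ _ h1
      closed := x3
      mix := ?_
      cc := x4
      size := ?_ }
  · intro t a b hl
    by_contra hR
    obtain ⟨h1, h2⟩ := hf t.1 a.1 b.1 hR
    obtain ⟨t'', h3, h4⟩ := hl ⟨f t.1 a.1 b.1, x1 t.1 t.2 a.1 a.2 b.1 b.2⟩ h1
    exact h2 t''.1 h3 h4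
  · intro t a b hR
    obtain ⟨h1, h2, h3⟩ := hg t.1 a.1 b.1 hR
    exact ⟨⟨g t.1 a.1 b.1, x2 t.1 t.2 a.1 a.2 b.1 b.2⟩, h1, h2, h3⟩
  · refine x7.trans ?_
    rw [x6, x5]

end Pool.Agent.UlM
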