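import Pool.Agent.Lib.UlM.Rnm

/-!
# Gn: GCH at one cardinal, generic lemmas

PROOF. `gch_small`: `q = p`, `J = (I → Set P)`, `g (s, y) = s y`; `#J = 2 ^ (#I * #P) = 2 ^ #I = succ #I` (`hG`; if `P` is empty there is
nothing to prove; `#I * #P ≤ #I`). `gch_dc`: `q`, `J`, `g` for the subset give `q.1`, `J`, `g' (j, y) = (↑) '' g (j, y)`; a condition `r ≤ q.1` is in `G`;
a name `s` restricts to `s_G y = {a : ↥G | Mem le s y a.1}`; for `a : ↥G`, `Mem (leD le G) s_G y a ↔ Mem le s y a.1` and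
`Mem (leD le G) g (j, y) a ↔ Mem le g' (j, y) a.1` (all conditions below `a.1` are in `G`). `gch_iso`: transport by `e`: `g' (j, y) = e ⁻¹' g (j, y)`, a
name `s` on `G` becomes `e '' s y`; `Mem lG s y a ↔ Mem lQ (fun y => e '' s y) y (e a)`.
-/

set_option autoImplicit false
universe u

namespace Pool.Agent.UlM

open Cardinal Filter Pool.Agent.PolF Pool.Agent.UlB

/-- `p ⊩ 2 ^ #I ≤ (#I)⁺`, below some stronger condition -/
def FGchAt {P : Type u} (le : P → P → Prop) (I : Type u) (p : P) : Prop :=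
  ∃ q, le q p ∧ ∃ (J : Type u) (g : J × I → Set P), #J ≤ Order.succ #I ∧
    ∀ (s : I → Set P) (r : P), le r q → ∃ r', le r' r ∧ ∃ j, ∀ y,
      Iff' le (Mem le s y) (Mem le g (j, y)) r'

theorem fgch_iff {P : Type u} (le : P → P → Prop) :
    FGch le ↔ ∀ (I : Type u) (p : P), Infinite I → FGchAt le I p := Iff.rfl

variable {P : Type u} {le : P → P → Prop} (hr : ∀ p, le p p)
  (ht : ∀ p q r, le p q → le q r → le p r)
include hr ht

theorem gch_small (hG : ∀ c : Cardinal.{u}, ℵ₀ ≤ c → (2 : Cardinal.{u}) ^ c = Order.succ c)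
    {I : Type u} (hI : Infinite I) (h : #P ≤ #I) (p : P) : FGchAt le I p := by
  refine ⟨p, hr p, I → Set P, fun z => z.1 z.2, ?_, fun s r _ => ⟨r, hr r, s, fun y q _ => Iff.rfl⟩⟩
  have hI' : ℵ₀ ≤ #I := Cardinal.infinite_iff.1 hI
  rw [← Cardinal.power_def, Cardinal.mk_set, ← Cardinal.power_mul, ← hG _ hI']
  refine Cardinal.power_le_power_left two_ne_zero ?_
  calc #P * #I ≤ #I * #I := mul_le_mul_left h _
    _ = #I := Cardinal.mul_eq_self hI'

theorem gch_dc {G : Set P} (hd : ∀ p ∈ G, ∀ q, le q p → q ∈ G) {I : Type u} (p : ↥G)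
    (h : FGchAt (leD le G) I p) : FGchAt le I p.1 := by
  obtain ⟨q, hq, J, g, hJ, hg⟩ := h
  refine ⟨q.1, hq, J, fun z => Subtype.val '' g z, hJ, ?_⟩
  intro s r hrq
  have hrG : r ∈ G := hd _ q.2 _ hrq
  obtain ⟨r', hr', j, hj⟩ := hg (fun y => {a : ↥G | Mem le s y a.1}) ⟨r, hrG⟩ hrq
  refine ⟨r'.1, hr', j, fun y q2 hq2 => ?_⟩
  have hq2G : q2 ∈ G := hd _ r'.2 _ hq2
  have h1 := hj y ⟨q2, hq2G⟩ hq2
  have h2 : Mem (leD le G) (fun y => {a : ↥G | Mem le s y a.1}) y ⟨q2, hq2G⟩ ↔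
      Mem le s y q2 := by
    constructor
    · intro hm
      refine Mem_loc ht hr fun q3 hq3 => ?_
      have hq3G : q3 ∈ G := hd _ hq2G _ hq3
      obtain ⟨r3, hr3, b, hb, hrb⟩ := hm ⟨q3, hq3G⟩ hq3
      exact ⟨r3.1, hr3, Mem_down ht hrb hb⟩
    · intro hm q3 hq3
      exact ⟨q3, hr _, q3, Mem_down ht hq3 hm, hr _⟩
  have h3 : Mem (leD le G) g (j, y) ⟨q2, hq2G⟩ ↔
      Mem le (fun z => Subtype.val '' g z) (j, y) q2 := by
    constructor
    · intro hm q3 hq3
      have hq3G : q3 ∈ G := hd _ hq2G _ hq3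
      obtain ⟨r3, hr3, b, hb, hrb⟩ := hm ⟨q3, hq3G⟩ hq3
      exact ⟨r3.1, hr3, b.1, ⟨b, hb, rfl⟩, hrb⟩
    · intro hm q3 hq3
      obtain ⟨r3, hr3, b, ⟨b', hb', rfl⟩, hrb⟩ := hm q3.1 hq3
      exact ⟨⟨r3, hd _ q3.2 _ hr3⟩, hr3, b', hb', hrb⟩
  rw [← h2, ← h3]
  exact h1

theorem gch_iso {Q : Type u} {lQ : Q → Q → Prop} (e : P ≃ Q) (he : ∀ a b, lQ (e a) (e b) ↔ le a b)
    {I : Type u} (p : P) (h : FGchAt lQ I (e p)) : FGchAt le I p := by
  have key : ∀ {X : Type u} (A : X → Set Q) (y : X) (a : P),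
      Mem le (fun y => e ⁻¹' A y) y a ↔ Mem lQ A y (e a) := by
    intro X A y a
    constructor
    · intro hm q hq
      have h1 : le (e.symm q) a := by
        rw [← he, e.apply_symm_apply]
        exact hq
      obtain ⟨r, hrq, b, hb, hrb⟩ := hm _ h1
      refine ⟨e r, ?_, e b, hb, (he _ _).2 hrb⟩
      rw [← e.apply_symm_apply q, he]
      exact hrq
    · intro hm q hq
      obtain ⟨r, hrq, b, hb, hrb⟩ := hm (e q) ((he _ _).2 hq)
      refine ⟨e.symm r, ?_, e.symm b, ?_, ?_⟩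
      · rw [← he, e.apply_symm_apply]
        exact hrq
      · change e (e.symm b) ∈ A y
        rw [e.apply_symm_apply]
        exact hb
      · rw [← he, e.apply_symm_apply, e.apply_symm_apply]
        exact hrb
  obtain ⟨q, hq, J, g, hJ, hg⟩ := h
  refine ⟨e.symm q, ?_, J, fun z => e ⁻¹' g z, hJ, ?_⟩
  · rw [← he, e.apply_symm_apply]
    exact hq
  · intro s r hrq
    obtain ⟨r', hr', j, hj⟩ := hg (fun y => e '' s y) (e r) (by
      rw [← e.apply_symm_apply q, he]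
      exact hrq)
    refine ⟨e.symm r', ?_, j, fun y q2 hq2 => ?_⟩
    · rw [← he, e.apply_symm_apply]
      exact hr'
    · have h1 : lQ (e q2) r' := by
        rw [← e.apply_symm_apply r', he]
        exact hq2
      have h2 := hj y (e q2) h1
      rw [← key, ← key] at h2
      have h3 : (fun y => e ⁻¹' (e '' s y)) = s := by
        funext y
        exact e.preimage_image (s y)
      rw [h3] at h2
      exact h2

end Pool.Agent.UlM
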