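import Pool.Agent.Lib.UlM.Rul

/-!
# Kap: `x ∩ κ` is an initial segment

PROOF. `tr_kap`: (1) for almost all `x`, `Tr e x` is a lower set: by `all_iff` it is enough that for each `a : K`, for almost all
`x`, `∀ b < a, e b ∈ x`; `complete` for the index type `Set.Iio a`, `#(Iio a) < κ` (`Cardinal.mk_Iio_toType_ord_lt`), and `fine`.
(2) `Tr e x ≠ univ` since `#x < κ = #K` and `e` is injective (`Cardinal.mk_le_of_injective`). Then `i = ` the least element not in
`Tr e x` (`WellFounded.min`).
-/

set_option autoImplicit false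
universe u

namespace Pool.Agent.UlM

open Cardinal Filter

variable {κ : Cardinal.{u}} {W : Type u} {U : Ultrafilter (Set W)} (hU : NormalFine κ W U)
include hU

theorem tr_kap {e : κ.ord.ToType → W} (he : Function.Injective e) :
    ∀ᶠ x in (U : Filter (Set W)), ∃ i : κ.ord.ToType, Tr e x = Set.Iio i := by
  have h1 : ∀ᶠ x in (U : Filter (Set W)), ∀ a ∈ Tr e x, ∀ b : Set.Iio a, e b.1 ∈ x := by
    refine (all_iff hU he (fun x a => ∀ b : Set.Iio a, e b.1 ∈ x)).2 fun a => ?_
    exact hU.complete (Set.Iio a) (fun b x => e b.1 ∈ x) (Cardinal.mk_Iio_toType_ord_lt a)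
      (fun b => hU.fine _)
  filter_upwards [h1, hU.small] with x hx hs
  have hne : ∃ a : κ.ord.ToType, a ∉ Tr e x := by
    by_contra hall
    push Not at hall
    have hle : #κ.ord.ToType ≤ #x :=
      Cardinal.mk_le_of_injective (f := fun a : κ.ord.ToType => (⟨e a, hall a⟩ : x))
        (fun a b hab => he (congrArg Subtype.val hab))
    rw [Cardinal.mk_toType, Cardinal.card_ord] at hle
    exact absurd hs (not_lt.2 hle)
  let i := WellFounded.min (wellFounded_lt : WellFounded (α := κ.ord.ToType) (· < ·)) {a | a ∉ Tr e x} hne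
  have hi : i ∉ Tr e x := WellFounded.min_mem (wellFounded_lt : WellFounded (α := κ.ord.ToType) (· < ·)) {a | a ∉ Tr e x} hne
  refine ⟨i, ?_⟩
  ext a
  constructor
  · intro ha
    by_contra hia
    have hle : i ≤ a := not_lt.1 hia
    rcases hle.lt_or_eq with hlt | heq
    · exact hi (hx a ha ⟨i, hlt⟩)
    · exact hi (heq ▸ ha)
  · intro ha
    by_contra hna
    exact WellFounded.not_lt_min (wellFounded_lt : WellFounded (α := κ.ord.ToType) (· < ·)) {a | a ∉ Tr e x} hna ha

end Pool.Agent.UlM
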