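import Pool.Agent.Lib.UlM.Gn

/-!
# Prj: projections of forcings, names, GCH

PROOF. `mem_pb`: (←) `{g | Mem lQ N y (π g)}` is closed under stronger conditions (`mono`, `Mem_down`), so `g` and everything below it
is in `pb lQ π N y`. (→) `Mem_loc` for `lQ`: let `q` be below `π g`; `lift`: `g₁ ≤ g` with `π g₁ ≤ q`; `Mem` at `g₁`: there are `g₂ ≤ g₁` and
`a ∈ pb lQ π N y` with `g₂ ≤ a`; `Mem lQ N y (π a)`, so `Mem lQ N y (π g₂)`, and `π g₂ ≤ q`.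
`gch_prj`: let `q ≤ π g`, `J`, `γ` be as in `FGchAt lQ I (π g)`; `lift`: `g₁ ≤ g`, `π g₁ ≤ q`. For `J`, `γ' (j, y) = pb lQ π (fun y => γ (j, y)) y`: given
`s` and `r ≤ g₁`, `hred` gives `r₁ ≤ r` and `s'`; apply the property of `γ` to `s'` and `π r₁` (`≤ q`): `r' ≤ π r₁`, `j`; `lift`: `r₂ ≤ r₁`
with `π r₂ ≤ r'`. For `h ≤ r₂`: `Mem s y h ↔ Mem s' y (π h) ↔ Mem γ (j, y) (π h) ↔ Mem γ' (j, y) h` (`mem_pb`; `Mem` at the pair
`(j, y)` of `γ` is `Mem` at `y` of `fun y => γ (j, y)`, by unfolding).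
-/

set_option autoImplicit false
universe u

namespace Pool.Agent.UlM

open Cardinal Filter Pool.Agent.PolF Pool.Agent.UlB

/-- `π` is a projection of preorders -/
structure IsPrj {G Q : Type u} (lG : G → G → Prop) (lQ : Q → Q → Prop) (π : G → Q) : Prop where
  mono : ∀ g h, lG g h → lQ (π g) (π h)
  lift : ∀ g q, lQ q (π g) → ∃ g', lG g' g ∧ lQ (π g') q

/-- the pullback of a name -/
def pb {G Q Y : Type u} (lQ : Q → Q → Prop) (π : G → Q) (N : Y → Set Q) (y : Y) : Set G :=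
  {g | Mem lQ N y (π g)}

variable {G Q : Type u} {lG : G → G → Prop} {lQ : Q → Q → Prop} {π : G → Q}
  (hr : ∀ p, lG p p) (ht : ∀ p q r, lG p q → lG q r → lG p r)
  (hr' : ∀ p, lQ p p) (ht' : ∀ p q r, lQ p q → lQ q r → lQ p r) (hπ : IsPrj lG lQ π)
include hr ht hr' ht' hπ

theorem mem_pb {Y : Type u} (N : Y → Set Q) (y : Y) (g : G) :
    Mem lG (pb lQ π N) y g ↔ Mem lQ N y (π g) := by
  constructor
  · intro h
    refine Mem_loc ht' hr' fun q hq => ?_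
    obtain ⟨g1, hg1, hq1⟩ := hπ.lift g q hq
    obtain ⟨g2, hg2, a, ha, hga⟩ := h g1 hg1
    exact ⟨π g2, ht' _ _ _ (hπ.mono _ _ hg2) hq1, Mem_down ht' (hπ.mono _ _ hga) ha⟩
  · exact fun h g' hg' => ⟨g', hr g', g', Mem_down ht' (hπ.mono _ _ hg') h, hr g'⟩

theorem gch_prj {I : Type u} (hred : ∀ (s : I → Set G) (g : G), ∃ g', lG g' g ∧
      ∃ s' : I → Set Q, ∀ h, lG h g' → ∀ y, (Mem lG s y h ↔ Mem lQ s' y (π h)))
    (g : G) (hq : FGchAt lQ I (π g)) : FGchAt lG I g := by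
  obtain ⟨q, hq, J, γ, hJ, hγ⟩ := hq
  obtain ⟨g1, hg1, hgq⟩ := hπ.lift g q hq
  refine ⟨g1, hg1, J, fun jy => pb lQ π (fun y => γ (jy.1, y)) jy.2, hJ, fun s r hrg => ?_⟩
  obtain ⟨r1, hr1, s', hs'⟩ := hred s r
  obtain ⟨r', hrr, j, hj⟩ := hγ s' (π r1) (ht' _ _ _ (hπ.mono _ _ (ht _ _ _ hr1 hrg)) hgq)
  obtain ⟨r2, hr2, hr2'⟩ := hπ.lift r1 r' hrr
  refine ⟨r2, ht _ _ _ hr2 hr1, j, fun y h hh => ?_⟩
  have e1 := hs' h (ht _ _ _ hh hr2) y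
  have e2 := hj y (π h) (ht' _ _ _ (hπ.mono _ _ hh) hr2')
  have e3 : Mem lG (pb lQ π (fun y => γ (j, y))) y h ↔ Mem lQ (fun y => γ (j, y)) y (π h) :=
    mem_pb hr ht hr' ht' hπ _ y h
  exact e1.trans (e2.trans e3.symm)

end Pool.Agent.UlM
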