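import Pool.Agent.Lib.UlM.Rul
import Pool.Agent.Lib.UlM.Crl

/-!
# Rbc: reflection of closure under chains

PROOF. If it fails for almost all `x`, choose the counterexample `C_x`, viewed as a subset of `Z` contained in `Tr e' x`;
`set_ex` gives `C : Set Z` such that for almost all `x` `C ∩ Tr e' x` is a counterexample. Then `C` is not empty, any two
elements of it are `X`-comparable (take `x` containing both), `#C ≤ #T` by `le_of_tr` (for the types `↥C` and `T`; the trace of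
`x` on `↥C`, for the injection `e' ∘ (↑)`, has the cardinality of `C ∩ Tr e' x`), so `C` has a lower bound `b : Z`, which is in
`Tr e' x` for almost all `x` (`fine`): a contradiction.
-/

set_option autoImplicit false
universe u

namespace Pool.Agent.UlM

open Cardinal Filter

variable {κ : Cardinal.{u}} {W : Type u} {U : Ultrafilter (Set W)} (hU : NormalFine κ W U)
  {Z T : Type u} {e' : Z → W} {eT : T → W} (he' : Function.Injective e')
  (heT : Function.Injective eT)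
include hU he' heT

theorem blk_rf_closed {X : Z → Z → Prop}
    (h : ∀ C : Set Z, C.Nonempty → #C ≤ #T → (∀ a ∈ C, ∀ b ∈ C, X a b ∨ X b a) →
      ∃ b, ∀ a ∈ C, X b a) :
    ∀ᶠ x in (U : Filter (Set W)), ∀ C : Set ↥(Tr e' x), C.Nonempty → #C ≤ #(Tr eT x) →
      (∀ a ∈ C, ∀ b ∈ C, X a.1 b.1 ∨ X b.1 a.1) → ∃ b : ↥(Tr e' x), ∀ a ∈ C, X b.1 a.1 := by
  classical
  by_contra hc
  rw [← Ultrafilter.eventually_not] at hc
  have h1 : ∀ᶠ x in (U : Filter (Set W)), ∃ D ⊆ Tr e' x, (D.Nonempty ∧ #D ≤ #(Tr eT x) ∧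
      (∀ a ∈ D, ∀ b ∈ D, X a b ∨ X b a) ∧ ∀ b ∈ Tr e' x, ∃ a ∈ D, ¬ X b a) := by
    filter_upwards [hc] with x hx
    push Not at hx
    obtain ⟨C, hCne, hCc, hCX, hCb⟩ := hx
    refine ⟨Subtype.val '' C, ?_, hCne.image _, ?_, ?_, ?_⟩
    · rintro _ ⟨a, -, rfl⟩
      exact a.2
    · rw [Cardinal.mk_image_eq Subtype.val_injective]
      exact hCc
    · rintro _ ⟨a, ha, rfl⟩ _ ⟨b, hb, rfl⟩
      exact hCX a ha b hb
    · intro b hb
      obtain ⟨a, ha, hab⟩ := hCb ⟨b, hb⟩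
      exact ⟨a.1, ⟨a, ha, rfl⟩, hab⟩
  obtain ⟨D, hD⟩ := set_ex hU he' (fun x (D : Set Z) => D.Nonempty ∧ #D ≤ #(Tr eT x) ∧
      (∀ a ∈ D, ∀ b ∈ D, X a b ∨ X b a) ∧ ∀ b ∈ Tr e' x, ∃ a ∈ D, ¬ X b a) h1
  have hDne : D.Nonempty := by
    obtain ⟨x, ⟨a, ha⟩, -⟩ := hD.exists
    exact ⟨a, ha.1⟩
  have hDX : ∀ a ∈ D, ∀ b ∈ D, X a b ∨ X b a := by
    intro a ha b hb
    obtain ⟨x, ⟨hx, hax⟩, hbx⟩ := ((hD.and (hU.fine (e' a))).and (hU.fine (e' b))).exists
    exact hx.2.2.1 a ⟨ha, hax⟩ b ⟨hb, hbx⟩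
  have hDc : #D ≤ #T := by
    refine le_of_tr hU (e := fun d : D => e' d.1) (fun a b hab => Subtype.ext (he' hab)) heT ?_
    filter_upwards [hD] with x hx
    refine le_trans ?_ hx.2.1
    refine Cardinal.mk_le_of_injective
      (f := fun t : Tr (fun d : D => e' d.1) x => (⟨t.1.1, t.1.2, t.2⟩ : ↥(D ∩ Tr e' x))) ?_
    intro s t hst
    have h9 : s.1.1 = t.1.1 := congrArg (fun z : ↥(D ∩ Tr e' x) => z.1) hst
    exact Subtype.ext (Subtype.ext h9)
  obtain ⟨b, hb⟩ := h D hDne hDc hDX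
  obtain ⟨x, hx, hbx⟩ := (hD.and (hU.fine (e' b))).exists
  obtain ⟨a, ha, hab⟩ := hx.2.2.2 b hbx
  exact hab (hb a ha.1)

end Pool.Agent.UlM
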