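import Pool.Agent.Lib.UlM.Tl

/-!
# Red: the reduction theorem

PROOF. `red`: well-order `S = P × ι` (`#S ≤ ν`, infinite `ν`; `exists_wellOrder` or `WellOrderingRel`). Define `a_s`, `s ∈ S`, by
well-founded recursion: `a_s` is (by choice) some `a` with `X a b`, `X a a_{s'}` for all `s' < s`, and, for `s = (t, i)`, some
`t'` with `le t' t` and `(t', a) ∈ D i`, if such an `a` exists (otherwise `b`). By induction on `s` it exists: by induction
hypothesis `C = {b} ∪ {a_{s'} | s' < s}` is an `X`-chain, `#C ≤ ν`; take a lower bound `c` (`closed`); by density there is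
`(t', a₀) ∈ D i` with `le2 (t', a₀) (t, c)`; `mix` for `R t' a₀ c` gives `a` with `X a c`, `R t' a a₀`; `(t', a)` is below `(t', a₀)`, so it is
in `D i` (openness). Finally let `a` be a lower bound of `{b} ∪ {a_s | s ∈ S}`: for `i`, `t` and `s = (t, i)` there is `t'` with
`(t', a_s) ∈ D i`, and `(t', a)` is below it (`xr`).
-/

set_option autoImplicit false
universe u

namespace Pool.Agent.UlM

open Cardinal Filter Pool.Agent.PolF Pool.Agent.UlB

/-- a descending construction of length at most `ν` -/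
private theorem red_aux {Z : Type u} {X : Z → Z → Prop} {ν : Cardinal.{u}} (hν : ℵ₀ ≤ ν)
    (hX : ∀ a b c, X a b → X b c → X a c) (hr : ∀ a, X a a)
    (hc : ∀ C : Set Z, C.Nonempty → #C ≤ ν → (∀ a ∈ C, ∀ b ∈ C, X a b ∨ X b a) →
      ∃ b, ∀ a ∈ C, X b a)
    {S : Type u} (hS : #S ≤ ν) (Q : S → Z → Prop) (ho : ∀ s a c, X a c → Q s c → Q s a)
    (hd : ∀ s c, ∃ a, X a c ∧ Q s a) (b : Z) : ∃ a, X a b ∧ ∀ s, Q s a := by
  classical
  obtain ⟨_, hw⟩ := exists_wellFoundedLT S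
  choose ext hext hQ using hd
  have hlb : ∃ lb : Set Z → Z, ∀ C : Set Z, C.Nonempty → #C ≤ ν →
      (∀ a ∈ C, ∀ b ∈ C, X a b ∨ X b a) → ∀ a ∈ C, X (lb C) a := by
    refine ⟨fun C => if h : ∃ c, ∀ a ∈ C, X c a then h.choose else b, fun C h1 h2 h3 => ?_⟩
    have h4 := hc C h1 h2 h3
    simp only [dif_pos h4]
    exact h4.choose_spec
  obtain ⟨lb, hlb⟩ := hlb
  have hA : ∃ A : S → Z, ∀ s, A s = ext s (lb (insert b (A '' Set.Iio s))) := by
    refine ⟨(wellFounded_lt : WellFounded ((· < ·) : S → S → Prop)).fix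
      (fun s ih => ext s (lb (insert b {z | ∃ s', ∃ h : s' < s, ih s' h = z}))), fun s => ?_⟩
    rw [WellFounded.fix_eq]
    congr 3
    ext z
    exact ⟨fun ⟨s', h, e⟩ => ⟨s', h, e⟩, fun ⟨s', h, e⟩ => ⟨s', h, e⟩⟩
  obtain ⟨A, hA⟩ := hA
  have hcard : ∀ T : Set S, #(insert b (A '' T) : Set Z) ≤ ν := by
    intro T
    refine (Cardinal.mk_insert_le).trans ?_
    refine Cardinal.add_le_of_le hν ?_ (Cardinal.one_lt_aleph0.le.trans hν)
    exact (Cardinal.mk_image_le).trans ((Cardinal.mk_set_le T).trans hS)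
  -- chains from comparability
  have hchain : ∀ T : Set S, (∀ s ∈ T, X (A s) b ∧ ∀ s' < s, X (A s) (A s')) →
      ∀ a ∈ (insert b (A '' T) : Set Z), ∀ c ∈ (insert b (A '' T) : Set Z), X a c ∨ X c a := by
    rintro T hT a (rfl | ⟨s, hs, rfl⟩) c (rfl | ⟨s', hs', rfl⟩)
    · exact Or.inl (hr _)
    · exact Or.inr (hT s' hs').1
    · exact Or.inl (hT s hs).1
    · rcases lt_trichotomy s s' with h | h | h
      · exact Or.inr ((hT s' hs').2 s h)
      · subst h
        exact Or.inl (hr _)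
      · exact Or.inl ((hT s hs).2 s' h)
  have key : ∀ s, X (A s) b ∧ ∀ s' < s, X (A s) (A s') := by
    intro s
    induction s using WellFoundedLT.induction with
    | ind s ih =>
    have h1 := hlb (insert b (A '' Set.Iio s)) (Set.insert_nonempty _ _) (hcard _)
      (hchain (Set.Iio s) ih)
    have h2 : ∀ a ∈ (insert b (A '' Set.Iio s) : Set Z), X (A s) a := by
      intro a ha
      have h3 := hext s (lb (insert b (A '' Set.Iio s)))
      rw [← hA s] at h3
      exact hX _ _ _ h3 (h1 a ha)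
    exact ⟨h2 b (Set.mem_insert _ _), fun s' hs' =>
      h2 (A s') (Set.mem_insert_of_mem _ (Set.mem_image_of_mem _ hs'))⟩
  have hfin := hlb (insert b (A '' Set.univ)) (Set.insert_nonempty _ _) (hcard _)
    (hchain Set.univ fun s _ => key s)
  refine ⟨lb (insert b (A '' Set.univ)), hfin b (Set.mem_insert _ _), fun s => ?_⟩
  refine ho s _ _ (hfin (A s) (Set.mem_insert_of_mem _ (Set.mem_image_of_mem _ trivial))) ?_
  have h3 := hQ s (lb (insert b (A '' Set.Iio s)))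
  rwa [← hA s] at h3

variable {P Z : Type u} {le : P → P → Prop} {R : P → Z → Z → Prop} {X : Z → Z → Prop}
  {ν : Cardinal.{u}} (hr : ∀ p, le p p) (ht : ∀ p q r, le p q → le q r → le p r)
  (h : IsTl le R X ν) (hν : ℵ₀ ≤ ν) (hP : #P ≤ ν)
include hr ht h hν hP

theorem red {ι : Type u} (hι : #ι ≤ ν) (D : ι → Set (P × Z))
    (ho : ∀ i z w, le2 le R z w → w ∈ D i → z ∈ D i) (hd : ∀ i z, ∃ w, le2 le R w z ∧ w ∈ D i)
    (b : Z) : ∃ a, X a b ∧ ∀ i t, ∃ t', le t' t ∧ (t', a) ∈ D i := by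
  have hS : #(P × ι) ≤ ν := by
    rw [Cardinal.mk_prod, Cardinal.lift_id, Cardinal.lift_id]
    exact Cardinal.mul_le_of_le hν hP hι
  obtain ⟨a, ha, hq⟩ := red_aux (Z := Z) (X := X) hν h.xtrans h.xrefl h.closed hS
    (fun s a => ∃ t', le t' s.1 ∧ (t', a) ∈ D s.2)
    (by
      rintro ⟨t, i⟩ a c hac ⟨t', h1, h2⟩
      exact ⟨t', h1, ho i (t', a) (t', c) ⟨hr _, h.xr _ _ _ hac⟩ h2⟩)
    (by
      rintro ⟨t, i⟩ c
      obtain ⟨⟨t', a0⟩, h1, h2⟩ := hd i (t, c)
      obtain ⟨a, h3, h4, -⟩ := h.mix t' a0 c h1.2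
      exact ⟨a, h3, t', h1.1, ho i (t', a) (t', a0) ⟨hr _, h4⟩ h2⟩) b
  exact ⟨a, ha, fun i t => hq (t, i)⟩

end Pool.Agent.UlM
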