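import Pool.Agent.Lib.UlM.Red

/-!
# Rnm: reduction of names

PROOF. `red_name`: `D y = {z | Mem c y z ∨ Neg (Mem c y) z}` is open (`Mem_down`, `Neg_down` of PolF/Bas.lean) and dense (`Mem_dec`), for
the preorder `le2 le R` (`le2_trans`, `le2_refl`). Let `a` be given by `red`, `c' y = {t | Mem c y (t, a)}`. Let `R t a' a`. (→) let
`Mem c y (t, a')`, `t₁ ≤ t`; there is `t₂ ≤ t₁` with `(t₂, a) ∈ D y`; not `Neg (Mem c y) (t₂, a)`, because `(t₂, a')` is below `(t₂, a)`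
(`down`) and below `(t, a')`; so `t₂ ∈ c' y`. (←) let `Mem c' y t`; for `(t₁, a₁)` below `(t, a')` there are `t₂ ≤ t₁` and
`s ∈ c' y` with `le t₂ s`; `Mem c y (s, a)`, and `(t₂, a₁)` is below `(s, a)` (`R t₂ a₁ a'`, `R t₂ a' a`), so `Mem c y (t₂, a₁)`; conclude by
`Mem_loc`.
-/

set_option autoImplicit false
universe u

namespace Pool.Agent.UlM

open Cardinal Filter Pool.Agent.PolF Pool.Agent.UlB

variable {P Z : Type u} {le : P → P → Prop} {R : P → Z → Z → Prop} {X : Z → Z → Prop}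
  {ν : Cardinal.{u}} (hr : ∀ p, le p p) (ht : ∀ p q r, le p q → le q r → le p r)
  (h : IsTl le R X ν) (hν : ℵ₀ ≤ ν) (hP : #P ≤ ν)
include hr ht h hν hP

theorem red_name {Y : Type u} (hY : #Y ≤ ν) (c : Y → Set (P × Z)) (b : Z) :
    ∃ a, X a b ∧ ∃ c' : Y → Set P, ∀ y t a', R t a' a →
      (Mem (le2 le R) c y (t, a') ↔ Mem le c' y t) := by
  have tr : ∀ z : P × Z, le2 le R z z := le2_refl hr h
  have tt : ∀ z w v : P × Z, le2 le R z w → le2 le R w v → le2 le R z v := le2_trans ht h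
  obtain ⟨a, hab, ha⟩ := red hr ht h hν hP hY
    (fun y => {z : P × Z | Mem (le2 le R) c y z ∨ Neg (le2 le R) (Mem (le2 le R) c y) z})
    (by
      intro y z w hzw hw
      rcases hw with hw | hw
      · exact Or.inl (Mem_down tt hzw hw)
      · exact Or.inr (Neg_down tt hzw hw))
    (by
      intro y z
      rcases Mem_dec (le := le2 le R) c y z with ⟨w, hw, hm⟩ | hn
      · exact ⟨w, hw, Or.inl hm⟩
      · exact ⟨z, tr z, Or.inr hn⟩) b
  refine ⟨a, hab, fun y => {t | Mem (le2 le R) c y (t, a)}, ?_⟩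
  intro y t a' hRa
  constructor
  · intro hm t1 ht1
    obtain ⟨t2, ht2, hD⟩ := ha y t1
    have h2t : le t2 t := ht _ _ _ ht2 ht1
    rcases hD with hD | hD
    · exact ⟨t2, ht2, t2, hD, hr t2⟩
    · exfalso
      have h1 : le2 le R (t2, a') (t2, a) := ⟨hr t2, h.down _ _ _ _ h2t hRa⟩
      have h2 : le2 le R (t2, a') (t, a') := ⟨h2t, h.refl _ _⟩
      exact hD (t2, a') h1 (Mem_down tt h2 hm)
  · intro hm
    refine Mem_loc tt tr ?_
    rintro ⟨t1, a1⟩ ⟨h1t, h1a⟩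
    obtain ⟨t2, ht2, s, hs, h2s⟩ := hm t1 h1t
    have h2t : le t2 t := ht _ _ _ ht2 h1t
    refine ⟨(t2, a1), ⟨ht2, h.refl _ _⟩, ?_⟩
    have h3 : le2 le R (t2, a1) (s, a) :=
      ⟨h2s, h.trans _ _ _ _ (h.down _ _ _ _ ht2 h1a) (h.down _ _ _ _ h2t hRa)⟩
    exact Mem_down tt h3 hs

end Pool.Agent.UlM
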